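import Pool.Agent.H86.AP.Stp
import Pool.Agent.H77.WD.Gs
import Pool.Agent.H4.AP.Va

/-!
# [H1 ENG HSC] the number of honest homomorphisms and the trivial bound of `BB`

* `hs_card`: `A : GS D Ω` from `gs_exists`. `H` of exponent `p` is a `p`-group, so every `φ.range` is one (`IsPGroup`: `h ^ p ^ 1 = 1`). `hon_fin` (H77/WD/Fra) gives
  the finiteness of `{φ | Hon L T φ}` (the condition `IsPGroup p φ.range` is automatic), so `HS` is the `toFinset`. `hon_eq`: `φ` is determined by the values at `L.t v`, `v ∈ T`, and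
  at `A.a i`, `i : Fin A.g`: `card ≤ (card H)^(#T + g) ≤ (B + 1)^((g + 1) (#T + 1))`, so `C = (B + 1) ^ (g + 1)`.
* `vb_bd`: `‖Vg‖ ≤ (#P)^2`: triangle inequality, `‖ch _‖ = 1` (`ec x` is a number on the unit circle), `‖WC‖ ≤ 1`, `(Nat.card q.ker)⁻¹ ≤ 1`.
* `bb_bd`: `XS` is a subset of `HS L T` (the set `XT` is a subset of the finite set `{φ | Hon L T φ}`), `G` has exponent `p` (`q` onto), `‖ec _‖ = 1`, `vb_bd`:
  `C = C₁ * (#P)^2` with `C₁` from `hs_card` for `B = #G`.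
-/

set_option autoImplicit false
set_option linter.dupNamespace false

open scoped NumberField ComplexConjugate
open IsDedekindDomain
open scoped Classical

noncomputable section

namespace H1.ENG

open H63.MA H38.ML H38.BB H38.BG H57.PC H57.BRA H77.PC3 H77.WD Pool.Agent.H19.NF Pool.Agent.H19.AB
  H86.AP

variable {K : Type} [Field K] [NumberField K] {Ω : Type} [Field Ω] [Algebra K Ω] [IsAlgClosure K Ω]
  {p m N : ℕ} {ζ : K}

omit [NumberField K] [IsAlgClosure K Ω] in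
private theorem pgr {p : ℕ} {H : Type} [Group H] (hH : ∀ h : H, h ^ p = 1) (φ : Gal(Ω/K) →* H) :
    IsPGroup p φ.range := by
  rintro ⟨_, σ, rfl⟩
  refine ⟨1, Subtype.ext ?_⟩
  show φ σ ^ p ^ 1 = 1
  rw [pow_one]
  exact hH _

theorem hs_card (hp : p.Prime) (hζ : IsPrimitiveRoot ζ p) {D : RD0 K p ζ} (L : LDs D Ω) (B : ℕ) :
    ∃ C : ℝ, 1 ≤ C ∧ ∀ (H : Type) [Group H] [Finite H], Nat.card H ≤ B → (∀ h : H, h ^ p = 1) →
      ∀ T : Finset (Pl K), ((HS L H T).card : ℝ) ≤ C ^ (T.card + 1) ∧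
        ∀ φ : Gal(Ω/K) →* H, φ ∈ HS L H T ↔ Hon L T φ := by
  obtain ⟨A⟩ := gs_exists hp hζ D Ω
  have hB1 : (1 : ℝ) ≤ (B : ℝ) + 1 := by
    have h : (0 : ℝ) ≤ B := Nat.cast_nonneg B
    linarith
  refine ⟨((B : ℝ) + 1) ^ (A.g + 1), one_le_pow₀ hB1, ?_⟩
  intro H _ _ hB hH T
  have hfin : {φ : Gal(Ω/K) →* H | Hon L T φ}.Finite :=
    (hon_fin hp hζ L A T H).subset fun φ h => ⟨h, pgr hH φ⟩
  have hHS : HS L H T = hfin.toFinset := dif_pos hfin
  have hmem : ∀ φ : Gal(Ω/K) →* H, φ ∈ HS L H T ↔ Hon L T φ := by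
    intro φ
    rw [hHS, Set.Finite.mem_toFinset]
    rfl
  refine ⟨?_, hmem⟩
  let hF : Fintype H := Fintype.ofFinite H
  have hinj : (HS L H T).card ≤ (Finset.univ : Finset ((T → H) × (Fin A.g → H))).card := by
    refine Finset.card_le_card_of_injOn (fun φ : Gal(Ω/K) →* H =>
      ((fun v : T => φ (L.t v), fun i : Fin A.g => φ (A.a i)) : (T → H) × (Fin A.g → H)))
      (fun _ _ => Finset.mem_coe.2 (Finset.mem_univ _)) ?_
    intro φ hφ φ' hφ' h
    have h5 := congrArg Prod.fst h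
    have h6 := congrArg Prod.snd h
    exact hon_eq hp hζ L A T φ φ' ((hmem φ).1 hφ) ((hmem φ').1 hφ') (pgr hH φ) (pgr hH φ')
      (fun v hv => congrFun h5 ⟨v, hv⟩) fun i => congrFun h6 i
  have hcard : (Finset.univ : Finset ((T → H) × (Fin A.g → H))).card = Nat.card H ^ (T.card + A.g) := by
    rw [Finset.card_univ, Fintype.card_prod, Fintype.card_fun, Fintype.card_fun, Fintype.card_coe,
      Fintype.card_fin, pow_add, Nat.card_eq_fintype_card]
  have h1 : ((HS L H T).card : ℝ) ≤ ((B : ℝ) + 1) ^ (T.card + A.g) := by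
    have h2 : (Nat.card H : ℝ) ≤ (B : ℝ) + 1 := by
      have h3 : (Nat.card H : ℝ) ≤ B := by exact_mod_cast hB
      linarith
    calc ((HS L H T).card : ℝ) ≤ (Nat.card H : ℝ) ^ (T.card + A.g) := by
          rw [hcard] at hinj
          exact_mod_cast hinj
      _ ≤ _ := pow_le_pow_left₀ (Nat.cast_nonneg _) h2 _
  refine h1.trans ?_
  rw [← pow_mul]
  refine pow_le_pow_right₀ hB1 ?_
  have e : (A.g + 1) * (T.card + 1) = T.card + A.g + (A.g * T.card + 1) := by ring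
  rw [e]
  exact Nat.le_add_right _ _

theorem ec_norm (x : AddCircle (1 : ℝ)) : ‖ec x‖ = 1 := H4.AP.ec_norm x

theorem vb_bd [NeZero (p ^ m)] {P G : Type} [Group P] [Fintype P] [Group G]
    (q : P →* G) (b : P → P → ZMod (p ^ m)) (t : P) (s x : G) :
    ‖Vg q b t s x‖ ≤ (Fintype.card P : ℝ) ^ 2 := by
  have h1 : (1 : ℝ) ≤ Fintype.card P := by
    exact_mod_cast Fintype.card_pos
  exact (H4.AP.vb_norm q t s x).trans (by nlinarith)

theorem bb_bd (hp : p.Prime) (hζ : IsPrimitiveRoot ζ p) [NeZero (p ^ m)]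
    (D : RD0 K p ζ) (L : LDs D Ω) (Q : DP K Ω) (Fr : FR L) (lam : Pl K → ZMod p)
    (I : (Gal(Ω/K) → Gal(Ω/K) → Gal(Ω/K) → ZMod (p ^ m)) →+ AddCircle (1 : ℝ))
    {P : Type} [Group P] [Fintype P] (hP : ∀ x : P, x ^ p = 1)
    (φ₁ : Gal(Ω/K) →* P) {G : Type} [Group G] [Fintype G] (q : P →* G)
    (hq : Function.Surjective q) (b : P → P → ZMod (p ^ m)) (w : G → G → G → ZMod (p ^ m)) :
    ∃ C : ℝ, 1 ≤ C ∧ ∀ (T : Finset (Pl K)) (γ : Pl K → P),
      ‖H86.AP.BB L Q Fr lam I φ₁ q b w T γ‖ ≤ C ^ (T.card + 1) := by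
  obtain ⟨C₁, hC₁, hC⟩ := hs_card (Ω := Ω) hp hζ L (Nat.card G)
  have hG : ∀ x : G, x ^ p = 1 := by
    intro x
    obtain ⟨x, rfl⟩ := hq x
    rw [← map_pow, hP, map_one]
  have h1 : (1 : ℝ) ≤ Fintype.card P := by
    exact_mod_cast Fintype.card_pos
  have h2 : (1 : ℝ) ≤ (Fintype.card P : ℝ) ^ 2 := one_le_pow₀ h1
  refine ⟨C₁ * (Fintype.card P : ℝ) ^ 2, one_le_mul_of_one_le_of_one_le hC₁ h2, fun T γ => ?_⟩
  obtain ⟨h3, h4⟩ := hC G le_rfl hG T
  have hsub : XS L Q (q.comp φ₁) T ⊆ HS L G T := by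
    intro φ hφ
    unfold XS at hφ
    split_ifs at hφ with h
    · rw [Set.Finite.mem_toFinset] at hφ
      exact (h4 φ).2 hφ.1
    · exact absurd hφ (Finset.notMem_empty _)
  unfold H86.AP.BB
  refine (norm_sum_le _ _).trans ?_
  have h5 : ∀ φ ∈ XS L Q (q.comp φ₁) T, ‖ec (Jf I w φ (q.comp φ₁)) *
      ∏ v ∈ T, Vg q (fun x y => (lam v).val • b x y) (γ v) (φ (L.t v)) (φ (Fr.F v))‖ ≤
        ((Fintype.card P : ℝ) ^ 2) ^ T.card := by
    intro φ _
    rw [norm_mul, ec_norm, one_mul, norm_prod]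
    refine (Finset.prod_le_prod (fun _ _ => norm_nonneg _) fun v _ => vb_bd q _ _ _ _).trans ?_
    rw [Finset.prod_const]
  refine (Finset.sum_le_sum h5).trans ?_
  rw [Finset.sum_const, nsmul_eq_mul, mul_pow]
  refine mul_le_mul ((Nat.cast_le.2 (Finset.card_le_card hsub)).trans h3)
    (pow_le_pow_right₀ h2 (Nat.le_succ _)) (by positivity) (by positivity)

end H1.ENG
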