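import Pool.Agent.H35.CF.Cnt
import Pool.Agent.H1.PN.Sw

/-!
# [H1 ENG CN] counting configurations for the engine of AP

* `cn1`: weighted sums over the configurations. `cn2`: few configurations have large support. `cn3`: the configurations with support in a given set.
* `cn4`: pairs of configurations with a common large prime.
* `pb_np`: the primes of non prime norm.
-/

set_option autoImplicit false

open scoped NumberField
open NumberField IsDedekindDomain H63.MA H57.AN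
open scoped Classical

noncomputable section

namespace H1.ENG

open H35.CF

/-- sums over the configurations of functions of the support -/
theorem cf_sum {V : Type} (Z : Finset V) (N : ℕ) (F : Finset V → ℝ) :
    ∑ f ∈ Cf Z (Fin N), F (sp Z f) = ∑ s ∈ Z.powerset, F s * (N : ℝ) ^ s.card := by
  have h := H35.CF.cf_prod (Λ := Fin N) Z F (fun _ _ => (1 : ℝ))
  have h1 : ∀ c : V → Option (Fin N), om Z (fun _ _ => (1 : ℝ)) c = 1 :=
    fun c => om_one Z c
  simp only [h1, mul_one] at h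
  rw [h]
  refine Finset.sum_congr rfl fun s _ => ?_
  simp

theorem cn3 {V : Type} (Z n' : Finset V) (N : ℕ) :
    (((Cf Z (Fin N)).filter fun f => sp Z f ⊆ n').card : ℝ) ≤ ((N : ℝ) + 1) ^ n'.card := by
  have h1 : (((Cf Z (Fin N)).filter fun f => sp Z f ⊆ n').card : ℝ) =
      ∑ f ∈ Cf Z (Fin N), (if sp Z f ⊆ n' then 1 else 0) := by
    rw [← Finset.sum_filter]
    simp
  rw [h1, cf_sum Z N fun s => if s ⊆ n' then 1 else 0]
  calc ∑ s ∈ Z.powerset, (if s ⊆ n' then (1 : ℝ) else 0) * (N : ℝ) ^ s.card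
      = ∑ s ∈ Z.powerset.filter (fun s => s ⊆ n'), (N : ℝ) ^ s.card := by
        rw [Finset.sum_filter]
        exact Finset.sum_congr rfl fun s _ => by split_ifs <;> ring
    _ ≤ ∑ s ∈ n'.powerset, (N : ℝ) ^ s.card := by
        refine Finset.sum_le_sum_of_subset_of_nonneg (fun s hs => ?_) fun s _ _ => by positivity
        rw [Finset.mem_filter] at hs
        exact Finset.mem_powerset.2 hs.2
    _ = ((N : ℝ) + 1) ^ n'.card := by
        rw [← Finset.sum_pow_mul_eq_add_pow]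
        simp

section main

variable (K : Type) [Field K] [NumberField K]

theorem loglog {Y : ℝ} (hY : Real.exp (Real.exp 1) ≤ Y) :
    3 ≤ Y ∧ Real.exp 1 ≤ Real.log Y ∧ 1 ≤ Real.log (Real.log Y) := by
  have h1 : (0 : ℝ) < Y := (Real.exp_pos _).trans_le hY
  have h2 : Real.exp 1 ≤ Real.log Y := by
    rw [Real.le_log_iff_exp_le h1]
    exact hY
  have h3 : (2 : ℝ) ≤ Real.exp 1 := by
    have := Real.add_one_le_exp (1 : ℝ)
    linarith
  refine ⟨?_, h2, ?_⟩
  · have h4 := Real.add_one_le_exp (Real.exp 1)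
    linarith
  · rw [Real.le_log_iff_exp_le (by linarith)]
    exact h2

theorem cn1 (N : ℕ) (b : ℝ) (hb : 0 ≤ b) :
    ∃ C : ℝ, 1 ≤ C ∧ ∀ (Z : Finset (Pl K)) (Y : ℝ), 3 ≤ Y →
      ∑ f ∈ (Cf Z (Fin N)).filter (fun f => nr (sp Z f) ≤ Y), b ^ (sp Z f).card * (nr (sp Z f))⁻¹ ≤
        C * Real.log Y ^ C := by
  obtain ⟨C, A, hC, hA, h⟩ := H35.CF.cnt_pow K (Fin N) b hb
  refine ⟨C * 2 ^ A + A + 1, by nlinarith [Real.rpow_nonneg (by norm_num : (0 : ℝ) ≤ 2) A], fun Z Y hY => ?_⟩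
  have hY0 : (0 : ℝ) < Y := by linarith
  have hlY : 1 ≤ Real.log Y := by
    rw [Real.le_log_iff_exp_le hY0]
    exact (Real.exp_one_lt_d9.le.trans (by norm_num)).trans hY
  have h1 := (h Z Y (by linarith)).2
  refine h1.trans ?_
  have h2 : (1 + Real.log Y) ^ A ≤ 2 ^ A * Real.log Y ^ A := by
    rw [← Real.mul_rpow (by norm_num) (by linarith)]
    exact Real.rpow_le_rpow (by linarith) (by linarith) hA
  have h3 : (0 : ℝ) < 2 ^ A := by positivity
  have h4 : Real.log Y ^ A ≤ Real.log Y ^ (C * 2 ^ A + A + 1) :=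
    Real.rpow_le_rpow_of_exponent_le hlY (by nlinarith)
  calc C * (1 + Real.log Y) ^ A ≤ C * (2 ^ A * Real.log Y ^ A) :=
        mul_le_mul_of_nonneg_left h2 hC.le
    _ = (C * 2 ^ A) * Real.log Y ^ A := by ring
    _ ≤ (C * 2 ^ A + A + 1) * Real.log Y ^ (C * 2 ^ A + A + 1) :=
        mul_le_mul (by linarith) h4 (by positivity) (by positivity)

theorem cn2 (N : ℕ) (b : ℝ) (hb : 0 ≤ b) (A : ℝ) :
    ∃ B : ℕ, ∃ C : ℝ, 0 < B ∧ 0 < C ∧ ∀ (Z : Finset (Pl K)) (Y : ℝ), Real.exp (Real.exp 1) ≤ Y →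
      ∑ f ∈ (Cf Z (Fin N)).filter (fun f => nr (sp Z f) ≤ Y ∧
          B * Real.log (Real.log Y) < ((sp Z f).card : ℝ)), b ^ (sp Z f).card * (nr (sp Z f))⁻¹ ≤
        C * Real.log Y ^ (-A) := by
  obtain ⟨B, C, hB, hC, h⟩ := H35.CF.cnt_ran K (Fin N) b hb A
  obtain ⟨B', hB'⟩ := exists_nat_ge (2 * B)
  have hB'0 : 0 < B' := by
    have : (0 : ℝ) < B' := by linarith
    exact_mod_cast this
  refine ⟨B', C, hB'0, hC, fun Z Y hY => ?_⟩
  obtain ⟨h3, -, h4⟩ := loglog hY
  refine le_trans ?_ (h Z Y h3).2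
  refine Finset.sum_le_sum_of_subset_of_nonneg (fun f hf => ?_) fun f _ _ => ?_
  · rw [Finset.mem_filter] at hf ⊢
    refine ⟨hf.1, hf.2.1, lt_of_le_of_lt ?_ hf.2.2⟩
    nlinarith
  · have := one_le_nr (sp Z f)
    positivity

/-- the configurations whose support contains a given prime -/
theorem cn5 (N : ℕ) (b : ℝ) (hb : 0 ≤ b) (Z : Finset (Pl K)) (Y : ℝ) (v : Pl K) :
    ∑ f ∈ (Cf Z (Fin N)).filter (fun f => nr (sp Z f) ≤ Y ∧ v ∈ sp Z f),
        b ^ (sp Z f).card * (nr (sp Z f))⁻¹ ≤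
      (N * b) * (nm v : ℝ)⁻¹ *
        ∑ f ∈ (Cf Z (Fin N)).filter (fun f => nr (sp Z f) ≤ Y), b ^ (sp Z f).card * (nr (sp Z f))⁻¹ := by
  have e1 : ∑ f ∈ (Cf Z (Fin N)).filter (fun f => nr (sp Z f) ≤ Y ∧ v ∈ sp Z f),
        b ^ (sp Z f).card * (nr (sp Z f))⁻¹ =
      ∑ s ∈ Z.powerset.filter (fun s => nr s ≤ Y ∧ v ∈ s), (N * b) ^ s.card * (nr s)⁻¹ := by
    rw [Finset.sum_filter, cf_sum Z N fun s => if nr s ≤ Y ∧ v ∈ s then
      b ^ s.card * (nr s)⁻¹ else 0, Finset.sum_filter]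
    refine Finset.sum_congr rfl fun s _ => ?_
    split_ifs
    · rw [mul_pow]
      ring
    · ring
  have e2 : ∑ f ∈ (Cf Z (Fin N)).filter (fun f => nr (sp Z f) ≤ Y),
        b ^ (sp Z f).card * (nr (sp Z f))⁻¹ =
      ∑ s ∈ Z.powerset.filter (fun s => nr s ≤ Y), (N * b) ^ s.card * (nr s)⁻¹ := by
    rw [Finset.sum_filter, cf_sum Z N fun s => if nr s ≤ Y then
      b ^ s.card * (nr s)⁻¹ else 0, Finset.sum_filter]
    refine Finset.sum_congr rfl fun s _ => ?_
    split_ifs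
    · rw [mul_pow]
      ring
    · ring
  rw [e1, e2, Finset.mul_sum]
  have h1 : ∀ s ∈ Z.powerset.filter (fun s => nr s ≤ Y ∧ v ∈ s), (N * b) ^ s.card * (nr s)⁻¹ =
      (N * b) * (nm v : ℝ)⁻¹ * ((N * b) ^ (s.erase v).card * (nr (s.erase v))⁻¹) := by
    intro s hs
    rw [Finset.mem_filter] at hs
    have h2 : nr s = nm v * nr (s.erase v) := by
      unfold nr
      exact (Finset.mul_prod_erase s (fun v => (nm v : ℝ)) hs.2.2).symm
    have h3 : s.card = (s.erase v).card + 1 := (Finset.card_erase_add_one hs.2.2).symm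
    rw [h2, mul_inv]
    nth_rewrite 1 [h3]
    rw [pow_succ]
    ring
  rw [Finset.sum_congr rfl h1]
  have hinj : Set.InjOn (fun s : Finset (Pl K) => s.erase v)
      (Z.powerset.filter fun s => nr s ≤ Y ∧ v ∈ s) := by
    intro s hs s' hs' h
    rw [Finset.mem_coe, Finset.mem_filter] at hs hs'
    have h3 : insert v (s.erase v) = insert v (s'.erase v) := congrArg (insert v) h
    rwa [Finset.insert_erase hs.2.2, Finset.insert_erase hs'.2.2] at h3
  rw [← Finset.sum_image (f := fun t => (N * b) * (nm v : ℝ)⁻¹ * ((N * b) ^ t.card * (nr t)⁻¹)) hinj]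
  refine Finset.sum_le_sum_of_subset_of_nonneg (fun t ht => ?_) fun t _ _ => ?_
  · rw [Finset.mem_image] at ht
    obtain ⟨s, hs, rfl⟩ := ht
    rw [Finset.mem_filter, Finset.mem_powerset] at hs ⊢
    exact ⟨(Finset.erase_subset _ _).trans hs.1, (nr_mono (Finset.erase_subset _ _)).trans hs.2.1⟩
  · have := one_le_nr t
    positivity

theorem pb_np (L : Type) [Field L] [NumberField L] (y : ℝ) :
    (((PB L y).filter fun v => ¬ (nm v).Prime).card : ℝ) ≤
      Module.finrank ℚ L * Real.sqrt y := by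
  have h1 : ((PB L y).filter fun v => ¬ (nm v).Prime).card ≤
      Module.finrank ℚ L * (((PB L y).filter fun v => ¬ (nm v).Prime).image fun v =>
        (nm v).minFac).card := by
    apply Finset.card_le_mul_card_image
    intro m _
    exact H57.LI.prk_fibre m _ fun v hv => (Finset.mem_filter.1 hv).2
  have h2 : (((PB L y).filter fun v => ¬ (nm v).Prime).image fun v => (nm v).minFac) ⊆
      Finset.Icc 1 ⌊Real.sqrt y⌋₊ := by
    intro m hm
    rw [Finset.mem_image] at hm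
    obtain ⟨v, hv, hv'⟩ := hm
    rw [Finset.mem_filter, mem_PB] at hv
    rw [Finset.mem_Icc, ← hv']
    refine ⟨Nat.minFac_pos _, Nat.le_floor ?_⟩
    apply Real.le_sqrt_of_sq_le
    refine le_trans ?_ hv.1
    exact_mod_cast Nat.minFac_sq_le_self (lt_trans zero_lt_one (one_lt_nm v)) hv.2
  have h3 := Finset.card_le_card h2
  rw [Nat.card_Icc, Nat.add_sub_cancel] at h3
  have h4 : ((⌊Real.sqrt y⌋₊ : ℕ) : ℝ) ≤ Real.sqrt y := Nat.floor_le (Real.sqrt_nonneg _)
  have h5 : (((PB L y).filter fun v => ¬ (nm v).Prime).card : ℝ) ≤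
      Module.finrank ℚ L * ((((PB L y).filter fun v => ¬ (nm v).Prime).image fun v =>
        (nm v).minFac).card : ℝ) := by
    exact_mod_cast h1
  have h6 : ((((PB L y).filter fun v => ¬ (nm v).Prime).image fun v =>
        (nm v).minFac).card : ℝ) ≤ ((⌊Real.sqrt y⌋₊ : ℕ) : ℝ) := by exact_mod_cast h3
  exact h5.trans (mul_le_mul_of_nonneg_left (h6.trans h4) (Nat.cast_nonneg _))

end main

end H1.ENG
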