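import Pool.Agent.H1.ENG.Gpg
import Pool.Agent.H1.ENG.Hsc
import Pool.Agent.H1.ENG.Cn

/-!
# [H1 ENG E1] `Mn → Sm`

`hX` gives `H, F, C`; `C_h` from `hs_card` (`B = card H`), `M` a bound of `‖F‖`; `d = finrank ℚ K`, `T₀ = exp ((log Y)^ε)`, `ℓ = log log Y`. `E`, `e` are fixed, `nr E ≤ (log Y)^A₁`, so `2^(#E) ≤ (log Y)^A₁` and `#E ≤ 2 A₁ ℓ`
(`card_ll`). For `f ∈ RX` put `T = sp (ZZ D Y \ E) f` (disjoint from `E`; all primes of `T ∪ E` are outside `S0`), `γ = gl c E e f`, `co_f` the coefficients of `hX (T ∪ E) γ`, `x_f = Y / nr T`. For every `j ≠ j₀` the prime `v ∈ pl (ZZ D Y \ E) f j` of `RX`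
is in `T`, not in `E`, and `γ v = c.g j` (`gl_pl`). So `mr Θ F = 0` for all `Θ` with `co_f Θ ≠ 0`.
(1) SIZE. `S f = ∑_{u ∈ UU D T₀ Y E T} X (insert u (T ∪ E)) .. = ∑_{Θ ∈ HS L H (T ∪ E)} co_f Θ ∑_{u ∈ UU} F (Θ F_u)`, `#UU ≤ d x_f` (`pb_card` in H1/PN/Sw; `UU ⊆ PB K x_f`), so `‖S f‖ ≤ C_h^(#T+#E+1) C^(#T+#E+1) M d Y / nr T`.
With `cn2` (`b = C_h C`, exponent `A + 1 + C₂`, `(C_h C)^(#E+1) ≤ (log Y)^(C₂)` by `pow_ll`): the `f` with `#T > B' ℓ` contribute `≤ Y (log Y)^(-A-1)` for large `Y`; `B'` is fixed now.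
(2) `#T ≤ B' ℓ`: if `x_f < T₀` then `UU` is empty. Otherwise `UU = {u ∈ ZZ D x_f, u ∉ T ∪ E} \ {u ∈ ZZ D T₀, u ∉ T ∪ E}`, so `‖S f‖ ≤ ∑_{Θ ∈ HS, co_f Θ ≠ 0} C^(#T+#E+1) (s(f,Θ,x_f) + s(f,Θ,T₀))`, `s(f,Θ,x) = ‖∑_{u ∈ ZZ D x, u ∉ T ∪ E} F (Θ F_u)‖`.
`gpg` with `ι = (Pl K → Option (Fin N)) × (Gal →* H)`, `J` = the pairs `(f, Θ)` with `f ∈ RX`, `#T ≤ B' ℓ`, `T₀ ≤ x_f`, `Θ ∈ HS L H (T ∪ E)`, `co_f Θ ≠ 0`, `n (f, Θ) = T ∪ E` (`nr n = nr T nr E ≤ Y (log Y)^A₁ ≤ Y^(A₁+1)`, `#n ≤ (B' + 2 A₁) ℓ`), once with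
`x = x_f` and once with `x = T₀` (both `≤ Y`). The number of indices with `n i = n'` is at most `(N+1)^(#n') C_h^(#n'+1) ≤ (log Y)^(C₁)` (`cn3`, `hs_card`; if there is one then `#n' ≤ (B' + 2 A₁) ℓ`; `pow_ll`).
`(nr n)⁻¹ x_f⁻¹ ≥ (log Y)^(-A₁) / Y`: `∑ s(f,Θ,x_f) ≤ Y (log Y)^(A₁-A')`; `nr T ≤ Y / T₀`, so `(nr n)⁻¹ T₀⁻¹ ≥ (log Y)^(-A₁) / Y` as well. `C^(#T+#E+1) ≤ (log Y)^(C₃)`. Take `A' ≥ A + A₁ + C₃ + 2`.
(`Y₀`: `gpg`, `exp (exp 1)`, and large enough for the constants.)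
-/

set_option autoImplicit false
set_option linter.dupNamespace false

open scoped NumberField ComplexConjugate
open IsDedekindDomain
open scoped Classical

noncomputable section

namespace H1.ENG

open H63.MA H38.ML H38.BB H38.BG H57.PC H57.BRA H77.PC3 H77.WD Pool.Agent.H19.NF Pool.Agent.H19.AB
  H86.AP H57.GP H35.CF

variable {p N : ℕ} [NeZero N] {K : IntermediateField ℚ QBar} [NumberField K] {ζ : K}

/-- powers with exponent `B log log Y` are powers of `log Y` -/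
theorem pow_ll (c : ℝ) (hc : 1 ≤ c) (B : ℕ) : ∃ C : ℕ, ∃ Y₀ : ℝ, ∀ Y : ℝ, Y₀ ≤ Y → ∀ k : ℕ,
    (k : ℝ) ≤ B * Real.log (Real.log Y) → c * c ^ k ≤ Real.log Y ^ C := by
  refine ⟨⌈B * Real.log c⌉₊ + 1, max (Real.exp (Real.exp 1)) (Real.exp c), fun Y hY k hk => ?_⟩
  obtain ⟨h3, h4, h5⟩ := loglog ((le_max_left _ _).trans hY)
  have hlc : 0 ≤ Real.log c := Real.log_nonneg hc
  have h6 : c ≤ Real.log Y :=
    (Real.le_log_iff_exp_le (by linarith)).2 ((le_max_right _ _).trans hY)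
  have hlY : 0 < Real.log Y := by linarith
  have hc0 : 0 < c := by linarith
  have h7 : c ^ k ≤ Real.log Y ^ ⌈B * Real.log c⌉₊ := by
    have e1 : c ^ k = Real.exp (k * Real.log c) := by
      rw [← Real.log_pow, Real.exp_log (pow_pos hc0 k)]
    have e2 : ∀ n : ℕ, Real.log Y ^ n = Real.exp (n * Real.log (Real.log Y)) := by
      intro n
      rw [← Real.log_pow, Real.exp_log (pow_pos hlY _)]
    rw [e1, e2]
    refine Real.exp_le_exp.2 ?_
    calc (k : ℝ) * Real.log c ≤ (B * Real.log (Real.log Y)) * Real.log c :=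
          mul_le_mul_of_nonneg_right hk hlc
      _ = (B * Real.log c) * Real.log (Real.log Y) := by ring
      _ ≤ _ := mul_le_mul_of_nonneg_right (Nat.le_ceil _) (by linarith)
  rw [pow_succ']
  exact mul_le_mul h6 h7 (pow_nonneg hc0.le k) hlY.le

theorem card_ll {K : Type} [Field K] [NumberField K] (E : Finset (Pl K)) (A₁ : ℕ) {Y : ℝ}
    (hY : Real.exp (Real.exp 1) ≤ Y) (hE : nr E ≤ Real.log Y ^ A₁) :
    (E.card : ℝ) ≤ 2 * A₁ * Real.log (Real.log Y) := by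
  obtain ⟨h3, h4, h5⟩ := loglog hY
  have h1 : (2 : ℝ) ^ E.card ≤ nr E := by
    unfold nr
    rw [← Finset.prod_const]
    exact Finset.prod_le_prod (fun _ _ => by norm_num) fun v _ => by exact_mod_cast one_lt_nm v
  have h6 := Real.log_le_log (by positivity) (h1.trans hE)
  rw [Real.log_pow, Real.log_pow] at h6
  have h7 : (1 : ℝ) / 2 < Real.log 2 := by
    have := Real.log_two_gt_d9
    linarith
  have h8 : (0 : ℝ) ≤ E.card := Nat.cast_nonneg _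
  nlinarith

theorem gl_pl {K : Type} [Field K] [NumberField K] {p N : ℕ} [NeZero N] {P : Type} [Group P] (c : CL p N P)
    (Z E : Finset (Pl K)) (e : Pl K → P) (f : Pl K → Option (Fin N)) (j : Fin N) (v : Pl K)
    (hv : v ∈ pl (Z \ E) f j) : v ∈ sp (Z \ E) f ∧ v ∉ E ∧ gl c E e f v = c.g j := by
  rw [mem_pl] at hv
  have hE := (Finset.mem_sdiff.1 hv.1).2
  refine ⟨mem_sp.2 ⟨hv.1, by rw [hv.2]; exact Option.some_ne_none j⟩, hE, ?_⟩
  unfold gl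
  rw [if_neg hE]
  unfold cf
  rw [hv.2]
  rfl

section uu

variable {K : Type} [Field K] [NumberField K] {p : ℕ} {ζ : K}

private theorem mem_ZZ (D : RD0 K p ζ) {Y : ℝ} {u : Pl K} : u ∈ ZZ D Y ↔ (nm u : ℝ) ≤ Y ∧ D.Gd u := by
  unfold ZZ
  rw [Finset.mem_filter, H57.AN.mem_PB]

private theorem uu_eq (D : RD0 K p ζ) {T₀ Y : ℝ} (E S : Finset (Pl K)) :
    ((ZZ D (Y / nr S)).filter (fun u => u ∉ S ∪ E)).filter (fun u => T₀ < (nm u : ℝ)) =
      H86.AP.UU D T₀ Y E S := by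
  have h1 := one_le_nr S
  have h0 : (0 : ℝ) < nr S := by linarith
  ext u
  unfold H86.AP.UU
  rw [Finset.mem_filter, Finset.mem_filter, Finset.mem_filter, Finset.mem_sdiff, mem_ZZ, mem_ZZ,
    Finset.mem_union, not_or, le_div_iff₀ h0, mul_comm (nm u : ℝ) (nr S)]
  have h2 : nr S * (nm u : ℝ) ≤ Y → (nm u : ℝ) ≤ Y := by
    intro h
    have h3 : (0 : ℝ) ≤ nm u := Nat.cast_nonneg _
    nlinarith
  tauto

private theorem uu_not (D : RD0 K p ζ) {T₀ x : ℝ} (T : Finset (Pl K)) (hx : T₀ ≤ x) :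
    ((ZZ D x).filter (fun u => u ∉ T)).filter (fun u => ¬ T₀ < (nm u : ℝ)) =
      (ZZ D T₀).filter (fun u => u ∉ T) := by
  ext u
  rw [Finset.mem_filter, Finset.mem_filter, Finset.mem_filter, mem_ZZ, mem_ZZ, not_lt]
  have h2 : (nm u : ℝ) ≤ T₀ → (nm u : ℝ) ≤ x := fun h => h.trans hx
  tauto

private theorem uu_sum (D : RD0 K p ζ) {T₀ Y : ℝ} (E S : Finset (Pl K))
    (hx : T₀ ≤ Y / nr S) (g : Pl K → ℂ) :
    ‖∑ u ∈ H86.AP.UU D T₀ Y E S, g u‖ ≤ ‖∑ u ∈ (ZZ D (Y / nr S)).filter (fun u => u ∉ S ∪ E), g u‖ +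
      ‖∑ u ∈ (ZZ D T₀).filter (fun u => u ∉ S ∪ E), g u‖ := by
  have h1 := Finset.sum_filter_add_sum_filter_not ((ZZ D (Y / nr S)).filter (fun u => u ∉ S ∪ E))
    (fun u => T₀ < (nm u : ℝ)) g
  rw [uu_eq D E S, uu_not D (S ∪ E) hx] at h1
  have h2 : ∑ u ∈ H86.AP.UU D T₀ Y E S, g u = ∑ u ∈ (ZZ D (Y / nr S)).filter (fun u => u ∉ S ∪ E), g u -
      ∑ u ∈ (ZZ D T₀).filter (fun u => u ∉ S ∪ E), g u := by
    rw [← h1]
    ring
  rw [h2]
  exact norm_sub_le _ _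

private theorem uu_empty (D : RD0 K p ζ) {T₀ Y : ℝ} (E S : Finset (Pl K)) (hx : Y / nr S < T₀) :
    H86.AP.UU D T₀ Y E S = ∅ := by
  have h1 := one_le_nr S
  have h0 : (0 : ℝ) < nr S := by linarith
  unfold H86.AP.UU
  rw [Finset.filter_eq_empty_iff]
  rintro u - ⟨-, h3, h4⟩
  have h5 : (nm u : ℝ) ≤ Y / nr S := by
    rw [le_div_iff₀ h0, mul_comm]
    exact h4
  linarith

private theorem uu_card (D : RD0 K p ζ) {T₀ Y : ℝ} (E S : Finset (Pl K)) (hY : 0 < Y) :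
    ((H86.AP.UU D T₀ Y E S).card : ℝ) ≤ Module.finrank ℚ K * (Y / nr S) := by
  have h1 := one_le_nr S
  have h0 : (0 : ℝ) < nr S := by linarith
  refine le_trans ?_ (H1.PN.pb_card (L := K) (Y / nr S) (by positivity))
  exact_mod_cast Finset.card_le_card fun u hu => by
    unfold H86.AP.UU at hu
    rw [Finset.mem_filter] at hu
    rw [H57.AN.mem_PB, le_div_iff₀ h0, mul_comm]
    exact hu.2.2.2

private theorem uu_good (D : RD0 K p ζ) {T₀ Y : ℝ} {E S : Finset (Pl K)} {u : Pl K}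
    (hu : u ∈ H86.AP.UU D T₀ Y E S) : D.Gd u ∧ u ∉ S ∪ E := by
  unfold H86.AP.UU at hu
  rw [Finset.mem_filter, Finset.mem_sdiff, mem_ZZ] at hu
  refine ⟨hu.1.1.2, ?_⟩
  rw [Finset.mem_union, not_or]
  exact ⟨hu.2.1, hu.1.2⟩

end uu

section ev

variable {Ω : Type} {K : Type} [Field K] [NumberField K] [Field Ω] [Algebra K Ω] {p : ℕ} {ζ : K}
  {D : RD0 K p ζ}

private theorem ev_bd (L : LDs D Ω) (Fr : FR L) {H : Type} [Group H] (F : H → ℂ) {M C Ch : ℝ}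
    (hM0 : 0 ≤ M) (hM : ∀ h, ‖F h‖ ≤ M) (T : Finset (Pl K)) (co : (Gal(Ω/K) →* H) → ℂ)
    (hC : 0 ≤ C) (hco : ∀ Θ, ‖co Θ‖ ≤ C ^ (T.card + 1))
    (hHS : ((HS L H T).card : ℝ) ≤ Ch ^ (T.card + 1)) (u : Pl K) :
    ‖Ev L Fr H F T co u‖ ≤ (Ch * C) ^ (T.card + 1) * M := by
  unfold Ev
  refine (norm_sum_le _ _).trans ?_
  have h1 : ∀ Θ ∈ HS L H T, ‖co Θ * F (Θ (Fr.F u))‖ ≤ C ^ (T.card + 1) * M := by
    intro Θ _
    rw [norm_mul]
    exact mul_le_mul (hco Θ) (hM _) (norm_nonneg _) (by positivity)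
  refine (Finset.sum_le_sum h1).trans ?_
  rw [Finset.sum_const, nsmul_eq_mul, mul_pow, mul_assoc]
  exact mul_le_mul_of_nonneg_right hHS (by positivity)

private theorem ev_sum (L : LDs D Ω) (Fr : FR L) {H : Type} [Group H] (F : H → ℂ) {C : ℝ}
    (T : Finset (Pl K)) (co : (Gal(Ω/K) →* H) → ℂ)
    (hco : ∀ Θ, ‖co Θ‖ ≤ C) (U : Finset (Pl K)) (s : (Gal(Ω/K) →* H) → ℝ)
    (hs : ∀ Θ, ‖∑ u ∈ U, F (Θ (Fr.F u))‖ ≤ s Θ) :
    ‖∑ u ∈ U, Ev L Fr H F T co u‖ ≤ ∑ Θ ∈ (HS L H T).filter (fun Θ => co Θ ≠ 0), C * s Θ := by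
  unfold Ev
  rw [Finset.sum_comm, Finset.sum_filter]
  refine (norm_sum_le _ _).trans (Finset.sum_le_sum fun Θ _ => ?_)
  rw [← Finset.mul_sum, norm_mul]
  split_ifs with h
  · exact mul_le_mul (hco Θ) (hs Θ) (norm_nonneg _) ((norm_nonneg _).trans (hco Θ))
  · push Not at h
    rw [h, norm_zero, zero_mul]

end ev

theorem eng1 (hp : p.Prime) (hp2 : p ≠ 2) (hζ : IsPrimitiveRoot ζ p) (D : RD0 K p ζ)
    (L : LDs D QBar) (Fr : FR L) {P : Type} [Group P] (c : CL p N P) (j₀ : Fin N)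
    (X : Finset (Pl K) → (Pl K → P) → ℂ) (hX : Mn L Fr c j₀ X) : Sm D c j₀ X := by
  intro ε A A₁ hε
  obtain ⟨H, hGr, hFt, F, C, hF, hC, hco⟩ := hX
  obtain ⟨Ch, hCh, hHS⟩ := hs_card hp hζ L (Nat.card H)
  have hHS' := fun T => (hHS H le_rfl hF.exp T)
  obtain ⟨M, hM⟩ : ∃ M : ℕ, ∀ h, ‖F h‖ ≤ M := by
    refine ⟨⌈∑ h, ‖F h‖⌉₊, fun h => ?_⟩
    exact (Finset.single_le_sum (f := fun h => ‖F h‖) (fun _ _ => norm_nonneg _)
      (Finset.mem_univ h)).trans (Nat.le_ceil _)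
  obtain ⟨b, hb⟩ : ∃ b : ℝ, b = Ch * C := ⟨_, rfl⟩
  have hb1 : 1 ≤ b := by
    rw [hb]
    exact one_le_mul_of_one_le_of_one_le hCh hC
  obtain ⟨CE, YE, hE⟩ := pow_ll b hb1 (2 * A₁)
  obtain ⟨B', C', hB', hC', hcn⟩ := cn2 K N b (by linarith) ((A : ℝ) + CE + 2)
  obtain ⟨C2, Y2, h2⟩ := pow_ll C hC (B' + 2 * A₁)
  have hN1 : (1 : ℝ) ≤ ((N : ℝ) + 1) * Ch := by
    have : (0 : ℝ) ≤ N := Nat.cast_nonneg _
    exact one_le_mul_of_one_le_of_one_le (by linarith) hCh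
  obtain ⟨C3, Y3, h3⟩ := pow_ll (((N : ℝ) + 1) * Ch) hN1 (B' + 2 * A₁)
  obtain ⟨Y4, h4⟩ := gpg hp hp2 hζ D L Fr (Fintype.card H + M) (C3 + (B' + 2 * A₁) + A₁ + 2)
    (A + C2 + A₁ + 2) ε hε
  obtain ⟨κ, hκ⟩ : ∃ κ : ℝ, κ = Module.finrank ℚ K * M * C' + 2 := ⟨_, rfl⟩
  refine ⟨max (max (max YE Y2) (max Y3 Y4)) (max (Real.exp (Real.exp 1)) (Real.exp κ)), ?_⟩
  intro Y hY E e hES hEn wt hwt
  rw [max_le_iff, max_le_iff, max_le_iff, max_le_iff, max_le_iff] at hY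
  obtain ⟨⟨⟨hYE, hY2⟩, hY3, hY4⟩, hYe, hYκ⟩ := hY
  obtain ⟨hY3', hle, hll⟩ := loglog hYe
  have hY0 : 0 < Y := by linarith
  obtain ⟨l, hl⟩ : ∃ l : ℝ, l = Real.log Y := ⟨_, rfl⟩
  have hlκ : κ ≤ l := by
    rw [hl]
    exact (Real.le_log_iff_exp_le hY0).2 hYκ
  have hκ2 : 2 ≤ κ := by
    rw [hκ]
    have : (0 : ℝ) ≤ Module.finrank ℚ K * M * C' := by positivity
    linarith
  have hl1 : 1 ≤ l := by linarith
  have hl0 : 0 < l := by linarith
  have hll' : Real.log Y ^ ε = l ^ ε := by rw [hl]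
  obtain ⟨T₀, hT₀⟩ : ∃ T₀ : ℝ, T₀ = Real.exp (Real.log Y ^ ε) := ⟨_, rfl⟩
  rw [← hT₀]
  have hcE := card_ll E A₁ hYe hEn
  -- notation
  obtain ⟨S, hS⟩ : ∃ S : (Pl K → Option (Fin N)) → Finset (Pl K), S = fun f => sp (ZZ D Y \ E) f := ⟨_, rfl⟩
  have hSE : ∀ f, Disjoint (S f) E := by
    intro f
    rw [Finset.disjoint_left]
    intro v hv
    rw [hS] at hv
    exact (Finset.mem_sdiff.1 (mem_sp.1 hv).1).2
  have hSG : ∀ f, ∀ v ∈ S f, D.Gd v := by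
    intro f v hv
    rw [hS] at hv
    exact ((mem_ZZ D).1 (Finset.mem_sdiff.1 (mem_sp.1 hv).1).1).2
  have hTS : ∀ f, ∀ v ∈ S f ∪ E, v ∉ D.S0 := by
    intro f v hv
    rcases Finset.mem_union.1 hv with h | h
    · exact (hSG f v h).1
    · exact hES v h
  have hTc : ∀ f, ((S f ∪ E).card : ℝ) ≤ (S f).card + E.card := by
    intro f
    exact_mod_cast Finset.card_union_le _ _
  choose co hco1 hco2 hco3 using fun f => hco (S f ∪ E) (gl c E e f) (hTS f)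
  have hcoX : ∀ f, ∑ u ∈ H86.AP.UU D T₀ Y E (S f), X (insert u (S f ∪ E)) (Function.update (gl c E e f) u (c.g j₀)) =
      ∑ u ∈ H86.AP.UU D T₀ Y E (S f), Ev L Fr H F (S f ∪ E) (co f) u := by
    intro f
    refine Finset.sum_congr rfl fun u hu => ?_
    obtain ⟨h5, h6⟩ := uu_good D hu
    exact hco3 f u h5 h6
  -- the absolute values
  have hSf : ∀ f, sp (ZZ D Y \ E) f = S f := fun f => by rw [hS]
  simp only [hSf, hcoX]
  obtain ⟨If, hIf⟩ : ∃ If : (Pl K → Option (Fin N)) → ℝ,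
      If = fun f => ‖∑ u ∈ H86.AP.UU D T₀ Y E (S f), Ev L Fr H F (S f ∪ E) (co f) u‖ := ⟨_, rfl⟩
  have hstep : ‖∑ f ∈ RX D j₀ T₀ Y E, (wt f : ℂ) * ∑ u ∈ H86.AP.UU D T₀ Y E (S f),
      Ev L Fr H F (S f ∪ E) (co f) u‖ ≤ ∑ f ∈ RX D j₀ T₀ Y E, If f := by
    refine (norm_sum_le _ _).trans (Finset.sum_le_sum fun f _ => ?_)
    rw [norm_mul, Complex.norm_real, Real.norm_of_nonneg (hwt f).1, hIf]
    exact mul_le_of_le_one_left (norm_nonneg _) (hwt f).2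
  refine hstep.trans ?_
  rw [← Finset.sum_filter_add_sum_filter_not (RX D j₀ T₀ Y E)
    (fun f => B' * Real.log (Real.log Y) < ((S f).card : ℝ)) If]
  -- the configurations with large support
  have part1 : ∑ f ∈ (RX D j₀ T₀ Y E).filter (fun f => B' * Real.log (Real.log Y) < ((S f).card : ℝ)), If f ≤
      (Module.finrank ℚ K * M * C') * (Y * l ^ (-((A : ℝ) + 2))) := by
    have h5 : ∀ f ∈ (RX D j₀ T₀ Y E).filter (fun f => B' * Real.log (Real.log Y) < ((S f).card : ℝ)),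
        If f ≤ (Module.finrank ℚ K * M * Y * l ^ CE) * (b ^ (S f).card * (nr (S f))⁻¹) := by
      intro f _
      have hn1 := one_le_nr (S f)
      have e1 : If f ≤ (H86.AP.UU D T₀ Y E (S f)).card * (b ^ ((S f ∪ E).card + 1) * M) := by
        rw [hIf]
        refine (norm_sum_le _ _).trans ?_
        rw [← nsmul_eq_mul, ← Finset.sum_const]
        refine Finset.sum_le_sum fun u _ => ?_
        rw [hb]
        exact ev_bd L Fr F (Nat.cast_nonneg M) hM _ _ (by linarith) (hco1 f) (hHS' _).1 u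
      have e2 : b ^ ((S f ∪ E).card + 1) ≤ l ^ CE * b ^ (S f).card := by
        calc b ^ ((S f ∪ E).card + 1) ≤ b ^ ((S f).card + E.card + 1) :=
              pow_le_pow_right₀ hb1 (Nat.add_le_add_right (Finset.card_union_le _ _) 1)
          _ = (b * b ^ E.card) * b ^ (S f).card := by ring
          _ ≤ l ^ CE * b ^ (S f).card := by
              refine mul_le_mul_of_nonneg_right ?_ (by positivity)
              rw [hl]
              exact hE Y hYE E.card (by push_cast; exact hcE)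
      have e3 := uu_card D (T₀ := T₀) E (S f) hY0
      calc If f ≤ (H86.AP.UU D T₀ Y E (S f)).card * (b ^ ((S f ∪ E).card + 1) * M) := e1
        _ ≤ (Module.finrank ℚ K * (Y / nr (S f))) * ((l ^ CE * b ^ (S f).card) * M) := by
            refine mul_le_mul e3 (mul_le_mul_of_nonneg_right e2 (Nat.cast_nonneg M)) (by positivity) (by positivity)
        _ = _ := by
            rw [div_eq_mul_inv]
            ring
    refine (Finset.sum_le_sum h5).trans ?_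
    rw [← Finset.mul_sum]
    have h6 : ∑ f ∈ (RX D j₀ T₀ Y E).filter (fun f => B' * Real.log (Real.log Y) < ((S f).card : ℝ)),
        b ^ (S f).card * (nr (S f))⁻¹ ≤ C' * l ^ (-((A : ℝ) + CE + 2)) := by
      rw [hl]
      refine le_trans ?_ (hcn (ZZ D Y \ E) Y hYe)
      simp only [hSf]
      refine Finset.sum_le_sum_of_subset_of_nonneg (fun f hf => ?_) fun f _ _ => ?_
      · unfold RX at hf
        simp only [hSf] at hf
        rw [Finset.mem_filter, Finset.mem_filter] at hf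
        rw [Finset.mem_filter]
        exact ⟨hf.1.1, hf.1.2.2, hf.2⟩
      · have := one_le_nr (S f)
        positivity
    refine (mul_le_mul_of_nonneg_left h6 (by positivity)).trans (le_of_eq ?_)
    have h7 : l ^ CE * l ^ (-((A : ℝ) + CE + 2)) = l ^ (-((A : ℝ) + 2)) := by
      rw [← Real.rpow_natCast, ← Real.rpow_add hl0]
      congr 1
      ring
    calc Module.finrank ℚ K * M * Y * l ^ CE * (C' * l ^ (-((A : ℝ) + CE + 2)))
        = (Module.finrank ℚ K * M * C') * (Y * (l ^ CE * l ^ (-((A : ℝ) + CE + 2)))) := by ring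
      _ = _ := by rw [h7]
  -- the other configurations
  obtain ⟨R2, hR2⟩ : ∃ R2 : Finset (Pl K → Option (Fin N)),
      R2 = (RX D j₀ T₀ Y E).filter (fun f => ¬ B' * Real.log (Real.log Y) < ((S f).card : ℝ)) := ⟨_, rfl⟩
  have hR2m : ∀ f ∈ R2, f ∈ Cf (ZZ D Y \ E) (Fin N) ∧
      (∀ j, j ≠ j₀ → ∃ v ∈ S f ∪ E, gl c E e f v = c.g j) ∧ nr (S f) ≤ Y ∧
      ((S f ∪ E).card : ℝ) ≤ (B' + 2 * A₁ : ℕ) * Real.log (Real.log Y) := by
    intro f hf
    rw [hR2] at hf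
    unfold RX at hf
    simp only [hSf] at hf
    rw [Finset.mem_filter, Finset.mem_filter, not_lt] at hf
    obtain ⟨⟨f1, f2, f3⟩, f4⟩ := hf
    refine ⟨f1, fun j hj => ?_, f3, ?_⟩
    · obtain ⟨v, hv, -⟩ := f2 j hj
      rw [mem_pl] at hv
      refine ⟨v, Finset.mem_union_left _ ?_, ?_⟩
      · rw [hS]
        exact mem_sp.2 ⟨hv.1, by rw [hv.2]; exact Option.some_ne_none j⟩
      · unfold gl
        rw [if_neg (Finset.mem_sdiff.1 hv.1).2]
        unfold cf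
        rw [hv.2]
        rfl
    · have h5 := hTc f
      push_cast
      linarith
  obtain ⟨J, hJ⟩ : ∃ J : Finset (Σ _ : (Pl K → Option (Fin N)), (Gal(QBar/K) →* H)),
      J = (R2.filter fun f => T₀ ≤ Y / nr (S f)).sigma fun f =>
        (HS L H (S f ∪ E)).filter fun Θ => co f Θ ≠ 0 := ⟨_, rfl⟩
  have hJm : ∀ i ∈ J, i.1 ∈ R2 ∧ T₀ ≤ Y / nr (S i.1) ∧ i.2 ∈ HS L H (S i.1 ∪ E) ∧ co i.1 i.2 ≠ 0 := by
    intro i hi
    rw [hJ, Finset.mem_sigma, Finset.mem_filter, Finset.mem_filter] at hi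
    exact ⟨hi.1.1, hi.1.2, hi.2.1, hi.2.2⟩
  have hnT : ∀ f, nr (S f ∪ E) ≤ nr (S f) * l ^ A₁ := by
    intro f
    rw [nr_union (hSE f), hl]
    exact mul_le_mul_of_nonneg_left hEn (by have := one_le_nr (S f); linarith)
  have hlY : l ≤ Y := by
    rw [hl]
    have := Real.log_le_sub_one_of_pos hY0
    linarith
  have hY1 : 1 ≤ Y := by linarith
  have hgp : ∀ x : (Σ _ : (Pl K → Option (Fin N)), (Gal(QBar/K) →* H)) → ℝ,
      (∀ i ∈ J, T₀ ≤ x i ∧ x i ≤ Y / nr (S i.1)) →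
      ∑ i ∈ J, ‖∑ u ∈ (ZZ D (x i)).filter (fun u => u ∉ S i.1 ∪ E), F (i.2 (Fr.F u))‖ ≤
        (Y * l ^ A₁) * l ^ (-((A + C2 + A₁ + 2 : ℕ) : ℝ)) := by
    intro x hx
    have g1 := h4 Y hY4 (Σ _ : (Pl K → Option (Fin N)), (Gal(QBar/K) →* H)) J (fun i => S i.1 ∪ E) x
      (by
        intro i hi
        obtain ⟨i1, i2, i3, i4⟩ := hJm i hi
        obtain ⟨r1, r2, r3, r4⟩ := hR2m _ i1
        refine ⟨?_, r4.trans ?_⟩
        · calc nr (S i.1 ∪ E) ≤ nr (S i.1) * l ^ A₁ := hnT _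
            _ ≤ Y * Y ^ A₁ := mul_le_mul r3 (pow_le_pow_left₀ hl0.le hlY _) (by positivity) hY0.le
            _ = Y ^ (A₁ + 1) := by ring
            _ ≤ _ := pow_le_pow_right₀ hY1 (by omega)
        · refine mul_le_mul_of_nonneg_right ?_ (by linarith)
          exact_mod_cast (by omega : B' + 2 * A₁ ≤ C3 + (B' + 2 * A₁) + A₁ + 2))
      (by
        intro i hi
        obtain ⟨x1, x2⟩ := hx i hi
        rw [← hT₀]
        refine ⟨x1, x2.trans ?_⟩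
        have h5 := one_le_nr (S i.1)
        calc Y / nr (S i.1) ≤ Y := div_le_self hY0.le h5
          _ = Y ^ 1 := (pow_one Y).symm
          _ ≤ _ := pow_le_pow_right₀ hY1 (by omega))
      (by
        intro n'
        by_cases hn : ((n'.card : ℕ) : ℝ) ≤ (B' + 2 * A₁ : ℕ) * Real.log (Real.log Y)
        · have e1 : (J.filter fun i => S i.1 ∪ E = n').card ≤
              (((Cf (ZZ D Y \ E) (Fin N)).filter fun f => sp (ZZ D Y \ E) f ⊆ n') ×ˢ (HS L H n')).card := by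
            refine Finset.card_le_card_of_injOn (fun i => (i.1, i.2)) (fun i hi => ?_) ?_
            · rw [Finset.mem_coe, Finset.mem_filter] at hi
              obtain ⟨i1, i2, i3, i4⟩ := hJm i hi.1
              rw [Finset.mem_coe, Finset.mem_product, Finset.mem_filter]
              refine ⟨⟨(hR2m _ i1).1, ?_⟩, ?_⟩
              · rw [hSf, ← hi.2]
                exact Finset.subset_union_left
              · rw [← hi.2]
                exact i3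
            · rintro ⟨f, Θ⟩ _ ⟨f', Θ'⟩ _ h
              simp only [Prod.mk.injEq] at h
              obtain ⟨rfl, rfl⟩ := h
              rfl
          have e2 : ((J.filter fun i => S i.1 ∪ E = n').card : ℝ) ≤
              ((N : ℝ) + 1) ^ n'.card * Ch ^ (n'.card + 1) := by
            calc ((J.filter fun i => S i.1 ∪ E = n').card : ℝ) ≤
                ((((Cf (ZZ D Y \ E) (Fin N)).filter fun f => sp (ZZ D Y \ E) f ⊆ n') ×ˢ (HS L H n')).card : ℝ) := by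
                  exact_mod_cast e1
              _ = (((Cf (ZZ D Y \ E) (Fin N)).filter fun f => sp (ZZ D Y \ E) f ⊆ n').card : ℝ) *
                  ((HS L H n').card : ℝ) := by
                  rw [Finset.card_product]
                  push_cast
                  rfl
              _ ≤ _ := mul_le_mul (cn3 _ _ _) (hHS' n').1 (Nat.cast_nonneg _) (by positivity)
          refine e2.trans ?_
          have hN0 : (0 : ℝ) ≤ N := Nat.cast_nonneg _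
          calc ((N : ℝ) + 1) ^ n'.card * Ch ^ (n'.card + 1)
              ≤ ((N : ℝ) + 1) ^ (n'.card + 1) * Ch ^ (n'.card + 1) := by
                refine mul_le_mul_of_nonneg_right (pow_le_pow_right₀ (by linarith) (Nat.le_succ _)) (by positivity)
            _ = (((N : ℝ) + 1) * Ch) * (((N : ℝ) + 1) * Ch) ^ n'.card := by rw [← mul_pow, pow_succ']
            _ ≤ Real.log Y ^ C3 := h3 Y hY3 _ hn
            _ ≤ _ := pow_le_pow_right₀ (by rw [← hl]; exact hl1) (by omega)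
        · have e1 : (J.filter fun i => S i.1 ∪ E = n') = ∅ := by
            rw [Finset.filter_eq_empty_iff]
            intro i hi h
            obtain ⟨i1, i2, i3, i4⟩ := hJm i hi
            apply hn
            rw [← h]
            exact (hR2m _ i1).2.2.2
          rw [e1, Finset.card_empty, Nat.cast_zero]
          rw [← hl]
          positivity)
      H F (Nat.le_add_right _ _) hF
      (fun h => (hM h).trans (by push_cast; have : (0 : ℝ) ≤ Fintype.card H := Nat.cast_nonneg _; linarith))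
      (fun i => i.2)
      (by
        intro i hi
        obtain ⟨i1, i2, i3, i4⟩ := hJm i hi
        exact ⟨((hHS' _).2 _).1 i3, hco2 _ _ i4 (hR2m _ i1).2.1⟩)
    rw [← hl] at g1
    have g2 : ∀ i ∈ J, ‖∑ u ∈ (ZZ D (x i)).filter (fun u => u ∉ S i.1 ∪ E), F (i.2 (Fr.F u))‖ ≤
        (Y * l ^ A₁) * ((nr (S i.1 ∪ E))⁻¹ * (x i)⁻¹ *
          ‖∑ u ∈ (ZZ D (x i)).filter (fun u => u ∉ S i.1 ∪ E), F (i.2 (Fr.F u))‖) := by
      intro i hi
      obtain ⟨x1, x2⟩ := hx i hi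
      have hx0 : 0 < x i := lt_of_lt_of_le (by rw [hT₀]; exact Real.exp_pos _) x1
      have hn1 := one_le_nr (S i.1)
      have hn2 := one_le_nr (S i.1 ∪ E)
      have e1 : nr (S i.1 ∪ E) * x i ≤ Y * l ^ A₁ := by
        calc nr (S i.1 ∪ E) * x i ≤ (nr (S i.1) * l ^ A₁) * (Y / nr (S i.1)) :=
              mul_le_mul (hnT _) x2 hx0.le (by positivity)
          _ = Y * l ^ A₁ := by
              field_simp
      have e2 : 1 ≤ (Y * l ^ A₁) * ((nr (S i.1 ∪ E))⁻¹ * (x i)⁻¹) := by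
        rw [← mul_inv, ← div_eq_mul_inv, le_div_iff₀ (by positivity), one_mul]
        exact e1
      calc ‖∑ u ∈ (ZZ D (x i)).filter (fun u => u ∉ S i.1 ∪ E), F (i.2 (Fr.F u))‖
          = 1 * ‖∑ u ∈ (ZZ D (x i)).filter (fun u => u ∉ S i.1 ∪ E), F (i.2 (Fr.F u))‖ := (one_mul _).symm
        _ ≤ ((Y * l ^ A₁) * ((nr (S i.1 ∪ E))⁻¹ * (x i)⁻¹)) *
            ‖∑ u ∈ (ZZ D (x i)).filter (fun u => u ∉ S i.1 ∪ E), F (i.2 (Fr.F u))‖ :=
            mul_le_mul_of_nonneg_right e2 (norm_nonneg _)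
        _ = _ := by ring
    refine (Finset.sum_le_sum g2).trans ?_
    rw [← Finset.mul_sum]
    exact mul_le_mul_of_nonneg_left g1 (by positivity)
  have part2 : ∑ f ∈ R2, If f ≤ 2 * (Y * l ^ (-((A : ℝ) + 2))) := by
    have h5 : ∑ f ∈ R2, If f = ∑ f ∈ R2.filter (fun f => T₀ ≤ Y / nr (S f)), If f := by
      symm
      refine Finset.sum_filter_of_ne fun f _ hne => ?_
      by_contra hcon
      push Not at hcon
      apply hne
      rw [hIf]
      show ‖∑ u ∈ H86.AP.UU D T₀ Y E (S f), Ev L Fr H F (S f ∪ E) (co f) u‖ = 0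
      rw [uu_empty D E (S f) hcon, Finset.sum_empty, norm_zero]
    rw [h5]
    have h6 : ∀ f ∈ R2.filter (fun f => T₀ ≤ Y / nr (S f)), If f ≤
        ∑ Θ ∈ (HS L H (S f ∪ E)).filter (fun Θ => co f Θ ≠ 0), l ^ C2 *
          (‖∑ u ∈ (ZZ D (Y / nr (S f))).filter (fun u => u ∉ S f ∪ E), F (Θ (Fr.F u))‖ +
            ‖∑ u ∈ (ZZ D T₀).filter (fun u => u ∉ S f ∪ E), F (Θ (Fr.F u))‖) := by
      intro f hf
      rw [Finset.mem_filter] at hf
      rw [hIf]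
      refine ev_sum L Fr F (S f ∪ E) (co f) (fun Θ => (hco1 f Θ).trans ?_) _ _
        fun Θ => uu_sum D E (S f) hf.2 _
      rw [pow_succ', hl]
      exact h2 Y hY2 _ (hR2m _ hf.1).2.2.2
    refine (Finset.sum_le_sum h6).trans ?_
    have h7 : ∑ f ∈ R2.filter (fun f => T₀ ≤ Y / nr (S f)),
        ∑ Θ ∈ (HS L H (S f ∪ E)).filter (fun Θ => co f Θ ≠ 0), l ^ C2 *
          (‖∑ u ∈ (ZZ D (Y / nr (S f))).filter (fun u => u ∉ S f ∪ E), F (Θ (Fr.F u))‖ +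
            ‖∑ u ∈ (ZZ D T₀).filter (fun u => u ∉ S f ∪ E), F (Θ (Fr.F u))‖) =
        ∑ i ∈ J, l ^ C2 *
          (‖∑ u ∈ (ZZ D (Y / nr (S i.1))).filter (fun u => u ∉ S i.1 ∪ E), F (i.2 (Fr.F u))‖ +
            ‖∑ u ∈ (ZZ D T₀).filter (fun u => u ∉ S i.1 ∪ E), F (i.2 (Fr.F u))‖) := by
      rw [hJ, Finset.sum_sigma]
    rw [h7, ← Finset.mul_sum, Finset.sum_add_distrib]
    have h8 := hgp (fun i => Y / nr (S i.1)) fun i hi => ⟨(hJm i hi).2.1, le_rfl⟩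
    have h9 := hgp (fun _ => T₀) fun i hi => ⟨le_rfl, (hJm i hi).2.1⟩
    refine (mul_le_mul_of_nonneg_left (add_le_add h8 h9) (by positivity)).trans (le_of_eq ?_)
    have h10 : l ^ C2 * (l ^ A₁ * l ^ (-((A + C2 + A₁ + 2 : ℕ) : ℝ))) = l ^ (-((A : ℝ) + 2)) := by
      rw [← Real.rpow_natCast l C2, ← Real.rpow_natCast l A₁, ← Real.rpow_add hl0, ← Real.rpow_add hl0]
      congr 1
      push_cast
      ring
    calc l ^ C2 * (Y * l ^ A₁ * l ^ (-((A + C2 + A₁ + 2 : ℕ) : ℝ)) + Y * l ^ A₁ * l ^ (-((A + C2 + A₁ + 2 : ℕ) : ℝ)))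
        = 2 * (Y * (l ^ C2 * (l ^ A₁ * l ^ (-((A + C2 + A₁ + 2 : ℕ) : ℝ))))) := by ring
      _ = _ := by rw [h10]
  rw [← hR2]
  refine (add_le_add part1 part2).trans ?_
  rw [← hl]
  have h11 : l ^ (-((A : ℝ) + 2)) = l ^ (-(A : ℝ)) * (l ^ 2)⁻¹ := by
    rw [← Real.rpow_natCast l 2, ← Real.rpow_neg hl0.le, ← Real.rpow_add hl0]
    congr 1
    push_cast
    ring
  have h12 : κ * (l ^ 2)⁻¹ ≤ 1 := by
    rw [← div_eq_mul_inv, div_le_one (by positivity)]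
    nlinarith
  have h13 : 0 ≤ Y * l ^ (-(A : ℝ)) := mul_nonneg hY0.le (Real.rpow_nonneg hl0.le _)
  calc (Module.finrank ℚ K * M * C') * (Y * l ^ (-((A : ℝ) + 2))) + 2 * (Y * l ^ (-((A : ℝ) + 2)))
      = (Y * l ^ (-(A : ℝ))) * (κ * (l ^ 2)⁻¹) := by
        rw [h11, hκ]
        ring
    _ ≤ (Y * l ^ (-(A : ℝ))) * 1 := mul_le_mul_of_nonneg_left h12 h13
    _ = _ := mul_one _

end H1.ENG
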