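import Pool.Agent.H1.ENG.Cn

/-!
# [H1 ENG CN4] pairs of configurations with a common large prime; one prime and the Cauchy inequality

* `nm2`: `∑_{v ∈ PB K Y, T < nm v} (nm v)⁻² ≤ C log Y / T` (`≤ T⁻¹ ∑_{nm v ≤ Y} (nm v)⁻¹`, `mer1` in H35/CF/Cnt).
* `cn4`: pairs `(f, f')` of configurations with norms `≤ Z ≤ Y` and a common prime `v` of norm `> T`: bound `1 ≤ Z² / (nr f nr f')`, sum over `v`, `cn5` (twice) and `cn1`, `nm2`
  (`≤ Z² ∑_v (N b / nm v)² (C (log Y)^C)²`; for `Z < 3` use `cn1` at `Y`: the filter `nr ≤ Z` is contained in `nr ≤ Y`).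
* `cau`: Cauchy's inequality for `∑_f w_f ∑_{u ∈ U f} a f u`: exchange the sums (`u ∈ U`), `‖∑_{u ∈ U} c_u‖² ≤ #U ∑ ‖c_u‖²`, expand the square, triangle inequality for the pairs.
-/

set_option autoImplicit false

open scoped NumberField ComplexConjugate
open NumberField IsDedekindDomain H63.MA H57.AN
open scoped Classical

noncomputable section

namespace H1.ENG

open H35.CF

theorem cau {V W : Type} (R : Finset V) (U : Finset W) (Uf : V → Finset W) (hU : ∀ f ∈ R, Uf f ⊆ U)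
    (w : V → ℝ) (hw : ∀ f ∈ R, 0 ≤ w f ∧ w f ≤ 1) (a : V → W → ℂ) :
    ‖∑ f ∈ R, (w f : ℂ) * ∑ u ∈ Uf f, a f u‖ ^ 2 ≤
      U.card * ∑ f ∈ R, ∑ f' ∈ R, ‖∑ u ∈ Uf f ∩ Uf f', a f u * conj (a f' u)‖ := by
  set b : V → W → ℂ := fun f u => if u ∈ Uf f then a f u else 0 with hb
  set c : W → ℂ := fun u => ∑ f ∈ R, (w f : ℂ) * b f u with hc
  have h1 : ∑ f ∈ R, (w f : ℂ) * ∑ u ∈ Uf f, a f u = ∑ u ∈ U, c u := by
    simp only [hc]
    rw [Finset.sum_comm]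
    refine Finset.sum_congr rfl fun f hf => ?_
    rw [← Finset.mul_sum]
    congr 1
    simp only [hb]
    rw [← Finset.sum_filter]
    refine Finset.sum_congr ?_ fun _ _ => rfl
    ext u
    rw [Finset.mem_filter]
    exact ⟨fun h => ⟨hU f hf h, h⟩, fun h => h.2⟩
  have h2 : ‖∑ u ∈ U, c u‖ ^ 2 ≤ U.card * ∑ u ∈ U, ‖c u‖ ^ 2 := by
    calc ‖∑ u ∈ U, c u‖ ^ 2 ≤ (∑ u ∈ U, ‖c u‖) ^ 2 :=
          pow_le_pow_left₀ (norm_nonneg _) (norm_sum_le _ _) 2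
      _ ≤ U.card * ∑ u ∈ U, ‖c u‖ ^ 2 := sq_sum_le_card_mul_sum_sq
  have h3 : ((∑ u ∈ U, ‖c u‖ ^ 2 : ℝ) : ℂ) = ∑ f ∈ R, ∑ f' ∈ R,
      (((w f * w f' : ℝ) : ℂ) * ∑ u ∈ Uf f ∩ Uf f', a f u * conj (a f' u)) := by
    rw [Complex.ofReal_sum]
    have e1 : ∀ u ∈ U, ((‖c u‖ ^ 2 : ℝ) : ℂ) = ∑ f ∈ R, ∑ f' ∈ R,
        ((w f * w f' : ℝ) : ℂ) * (b f u * conj (b f' u)) := by
      intro u _
      have e2 : ((‖c u‖ ^ 2 : ℝ) : ℂ) = c u * conj (c u) := by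
        rw [Complex.mul_conj, Complex.normSq_eq_norm_sq]
      rw [e2]
      simp only [hc]
      rw [map_sum, Finset.sum_mul_sum]
      refine Finset.sum_congr rfl fun f _ => Finset.sum_congr rfl fun f' _ => ?_
      rw [map_mul, Complex.conj_ofReal]
      push_cast
      ring
    rw [Finset.sum_congr rfl e1, Finset.sum_comm]
    refine Finset.sum_congr rfl fun f hf => ?_
    rw [Finset.sum_comm]
    refine Finset.sum_congr rfl fun f' hf' => ?_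
    rw [← Finset.mul_sum]
    congr 1
    have e3 : Uf f ∩ Uf f' = U.filter fun u => u ∈ Uf f ∧ u ∈ Uf f' := by
      ext u
      rw [Finset.mem_inter, Finset.mem_filter]
      exact ⟨fun h => ⟨hU f hf h.1, h⟩, fun h => h.2⟩
    rw [e3, Finset.sum_filter]
    refine Finset.sum_congr rfl fun u _ => ?_
    simp only [hb]
    by_cases g1 : u ∈ Uf f
    · by_cases g2 : u ∈ Uf f'
      · simp [g1, g2]
      · simp [g1, g2]
    · simp [g1]
  have h4 : ∑ u ∈ U, ‖c u‖ ^ 2 ≤ ∑ f ∈ R, ∑ f' ∈ R, ‖∑ u ∈ Uf f ∩ Uf f', a f u * conj (a f' u)‖ := by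
    have e1 : ∑ u ∈ U, ‖c u‖ ^ 2 = ‖((∑ u ∈ U, ‖c u‖ ^ 2 : ℝ) : ℂ)‖ := by
      rw [Complex.norm_real, Real.norm_of_nonneg (Finset.sum_nonneg fun u _ => by positivity)]
    rw [e1, h3]
    refine (norm_sum_le _ _).trans (Finset.sum_le_sum fun f hf => ?_)
    refine (norm_sum_le _ _).trans (Finset.sum_le_sum fun f' hf' => ?_)
    rw [norm_mul, Complex.norm_real, Real.norm_of_nonneg (mul_nonneg (hw f hf).1 (hw f' hf').1)]
    exact mul_le_of_le_one_left (norm_nonneg _)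
      (mul_le_one₀ (hw f hf).2 (hw f' hf').1 (hw f' hf').2)
  rw [h1]
  exact h2.trans (mul_le_mul_of_nonneg_left h4 (Nat.cast_nonneg _))

variable (K : Type) [Field K] [NumberField K]

theorem nm2 : ∃ C : ℝ, 0 < C ∧ ∀ Y T : ℝ, 3 ≤ Y → 0 < T →
    ∑ v ∈ (PB K Y).filter (fun v => T < (nm v : ℝ)), ((nm v : ℝ)⁻¹) ^ 2 ≤
      C * Real.log Y / T := by
  obtain ⟨C, hC, h⟩ := H35.CF.mer1 K
  refine ⟨1 + C, by linarith, fun Y T hY hT => ?_⟩
  have hY0 : (0 : ℝ) < Y := by linarith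
  have hlY : 1 ≤ Real.log Y := by
    rw [Real.le_log_iff_exp_le hY0]
    exact (Real.exp_one_lt_d9.le.trans (by norm_num)).trans hY
  have hll : Real.log (Real.log Y) ≤ Real.log Y := by
    have := Real.log_le_sub_one_of_pos (show 0 < Real.log Y by linarith)
    linarith
  calc ∑ v ∈ (PB K Y).filter (fun v => T < (nm v : ℝ)), ((nm v : ℝ)⁻¹) ^ 2
      ≤ ∑ v ∈ (PB K Y).filter (fun v => T < (nm v : ℝ)), T⁻¹ * (1 / (nm v : ℝ)) := by
        refine Finset.sum_le_sum fun v hv => ?_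
        rw [Finset.mem_filter] at hv
        have h1 : ((nm v : ℝ))⁻¹ ≤ T⁻¹ := inv_anti₀ hT hv.2.le
        rw [sq, one_div]
        exact mul_le_mul_of_nonneg_right h1 (inv_nonneg.2 (Nat.cast_nonneg _))
    _ ≤ ∑ v ∈ PB K Y, T⁻¹ * (1 / (nm v : ℝ)) := by
        refine Finset.sum_le_sum_of_subset_of_nonneg (Finset.filter_subset _ _) fun v _ _ => ?_
        positivity
    _ = T⁻¹ * ∑ v ∈ PB K Y, 1 / (nm v : ℝ) := by rw [Finset.mul_sum]
    _ ≤ T⁻¹ * ((1 + C) * Real.log Y) := by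
        refine mul_le_mul_of_nonneg_left ((h Y hY).trans ?_) (inv_nonneg.2 hT.le)
        nlinarith
    _ = (1 + C) * Real.log Y / T := by
        rw [div_eq_mul_inv]
        ring

theorem cn4 (N : ℕ) (b : ℝ) (hb : 0 ≤ b) :
    ∃ C : ℝ, 1 ≤ C ∧ ∀ (Z : Finset (Pl K)) (Y X T : ℝ), 3 ≤ Y → 0 < T → 0 < X → X ≤ Y →
      (∀ v ∈ Z, (nm v : ℝ) ≤ Y) →
      ∑ f ∈ (Cf Z (Fin N)).filter (fun f => nr (sp Z f) ≤ X), ∑ f' ∈ (Cf Z (Fin N)).filter (fun f' =>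
          nr (sp Z f') ≤ X ∧ ∃ v ∈ sp Z f, v ∈ sp Z f' ∧ T < (nm v : ℝ)),
        b ^ (sp Z f).card * b ^ (sp Z f').card ≤ X ^ 2 * (C * Real.log Y ^ C) / T := by
  obtain ⟨C₁, hC₁, h₁⟩ := cn1 K N b hb
  obtain ⟨C₂, hC₂, h₂⟩ := nm2 K
  refine ⟨(N * b) ^ 2 * C₁ ^ 2 * C₂ + 2 * C₁ + 1, by nlinarith [mul_nonneg (mul_nonneg (sq_nonneg ((N : ℝ) * b)) (sq_nonneg C₁)) hC₂.le], ?_⟩
  intro Z Y X T hY hT hX hXY hZ
  set G : (Pl K → Option (Fin N)) → ℝ := fun f => b ^ (sp Z f).card * (nr (sp Z f))⁻¹ with hG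
  have hG0 : ∀ f, 0 ≤ G f := fun f => by
    have := one_le_nr (sp Z f)
    simp only [hG]
    positivity
  set P := (PB K Y).filter (fun v => T < (nm v : ℝ)) with hP
  have hlY : 1 ≤ Real.log Y := by
    rw [Real.le_log_iff_exp_le (by linarith)]
    exact (Real.exp_one_lt_d9.le.trans (by norm_num)).trans hY
  set S : ℝ := C₁ * Real.log Y ^ C₁ with hS
  have hS0 : 0 ≤ S := by positivity
  have hSY : ∀ v, ∑ f ∈ (Cf Z (Fin N)).filter (fun f => nr (sp Z f) ≤ X ∧ v ∈ sp Z f), G f ≤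
      (N * b) * (nm v : ℝ)⁻¹ * S := by
    intro v
    refine (cn5 K N b hb Z X v).trans ?_
    refine mul_le_mul_of_nonneg_left ?_ (by positivity)
    refine le_trans ?_ (h₁ Z Y hY)
    refine Finset.sum_le_sum_of_subset_of_nonneg (fun f hf => ?_) fun f _ _ => hG0 f
    rw [Finset.mem_filter] at hf ⊢
    exact ⟨hf.1, hf.2.trans hXY⟩
  -- the terms
  have key : ∀ f, nr (sp Z f) ≤ X → b ^ (sp Z f).card ≤ X * G f := by
    intro f hf
    have h1 := one_le_nr (sp Z f)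
    have h2 : (1 : ℝ) ≤ X * (nr (sp Z f))⁻¹ := by
      rw [← div_eq_mul_inv, one_le_div (by linarith)]
      exact hf
    calc b ^ (sp Z f).card = b ^ (sp Z f).card * 1 := (mul_one _).symm
      _ ≤ b ^ (sp Z f).card * (X * (nr (sp Z f))⁻¹) :=
          mul_le_mul_of_nonneg_left h2 (by positivity)
      _ = X * G f := by simp only [hG]; ring
  have step : ∑ f ∈ (Cf Z (Fin N)).filter (fun f => nr (sp Z f) ≤ X), ∑ f' ∈ (Cf Z (Fin N)).filter (fun f' =>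
          nr (sp Z f') ≤ X ∧ ∃ v ∈ sp Z f, v ∈ sp Z f' ∧ T < (nm v : ℝ)),
        b ^ (sp Z f).card * b ^ (sp Z f').card ≤
      ∑ f ∈ (Cf Z (Fin N)).filter (fun f => nr (sp Z f) ≤ X), ∑ f' ∈ (Cf Z (Fin N)).filter (fun f' =>
          nr (sp Z f') ≤ X), ∑ v ∈ P, if v ∈ sp Z f ∧ v ∈ sp Z f' then X ^ 2 * (G f * G f') else 0 := by
    refine Finset.sum_le_sum fun f hf => ?_
    rw [Finset.mem_filter] at hf
    have hpos : ∀ f', 0 ≤ ∑ v ∈ P, if v ∈ sp Z f ∧ v ∈ sp Z f' then X ^ 2 * (G f * G f') else 0 := by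
      intro f'
      refine Finset.sum_nonneg fun v _ => ?_
      split_ifs
      · exact mul_nonneg (by positivity) (mul_nonneg (hG0 f) (hG0 f'))
      · exact le_rfl
    refine le_trans ?_ (Finset.sum_le_sum_of_subset_of_nonneg (s := (Cf Z (Fin N)).filter (fun f' =>
          nr (sp Z f') ≤ X ∧ ∃ v ∈ sp Z f, v ∈ sp Z f' ∧ T < (nm v : ℝ))) (fun f' hf' => ?_) fun f' _ _ => hpos f')
    · refine Finset.sum_le_sum fun f' hf' => ?_
      rw [Finset.mem_filter] at hf'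
      obtain ⟨hf'1, hf'2, v, hv, hv', hvT⟩ := hf'
      have hvP : v ∈ P := by
        rw [hP, Finset.mem_filter, mem_PB]
        exact ⟨hZ v (mem_sp.1 hv).1, hvT⟩
      calc b ^ (sp Z f).card * b ^ (sp Z f').card ≤ (X * G f) * (X * G f') :=
            mul_le_mul (key f hf.2) (key f' hf'2) (by positivity) (mul_nonneg hX.le (hG0 f))
        _ = if v ∈ sp Z f ∧ v ∈ sp Z f' then X ^ 2 * (G f * G f') else 0 := by
            rw [if_pos ⟨hv, hv'⟩]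
            ring
        _ ≤ _ := Finset.single_le_sum (f := fun v => if v ∈ sp Z f ∧ v ∈ sp Z f' then X ^ 2 * (G f * G f') else 0)
            (fun v _ => by
              split_ifs
              · exact mul_nonneg (by positivity) (mul_nonneg (hG0 f) (hG0 f'))
              · exact le_rfl) hvP
    · rw [Finset.mem_filter] at hf' ⊢
      exact ⟨hf'.1, hf'.2.1⟩
  refine step.trans ?_
  have swap : ∑ f ∈ (Cf Z (Fin N)).filter (fun f => nr (sp Z f) ≤ X), ∑ f' ∈ (Cf Z (Fin N)).filter (fun f' =>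
          nr (sp Z f') ≤ X), ∑ v ∈ P, (if v ∈ sp Z f ∧ v ∈ sp Z f' then X ^ 2 * (G f * G f') else 0) =
      ∑ v ∈ P, X ^ 2 * (∑ f ∈ (Cf Z (Fin N)).filter (fun f => nr (sp Z f) ≤ X ∧ v ∈ sp Z f), G f) ^ 2 := by
    have e1 : ∀ f ∈ (Cf Z (Fin N)).filter (fun f => nr (sp Z f) ≤ X), ∑ f' ∈ (Cf Z (Fin N)).filter (fun f' =>
          nr (sp Z f') ≤ X), ∑ v ∈ P, (if v ∈ sp Z f ∧ v ∈ sp Z f' then X ^ 2 * (G f * G f') else 0) =
        ∑ v ∈ P, ∑ f' ∈ (Cf Z (Fin N)).filter (fun f' =>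
          nr (sp Z f') ≤ X), (if v ∈ sp Z f ∧ v ∈ sp Z f' then X ^ 2 * (G f * G f') else 0) :=
      fun f _ => Finset.sum_comm
    rw [Finset.sum_congr rfl e1, Finset.sum_comm]
    refine Finset.sum_congr rfl fun v _ => ?_
    have e2 : (Cf Z (Fin N)).filter (fun f => nr (sp Z f) ≤ X ∧ v ∈ sp Z f) =
        ((Cf Z (Fin N)).filter (fun f => nr (sp Z f) ≤ X)).filter fun f => v ∈ sp Z f := by
      rw [Finset.filter_filter]
    have e3 : ∑ f ∈ ((Cf Z (Fin N)).filter (fun f => nr (sp Z f) ≤ X)).filter (fun f => v ∈ sp Z f), G f =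
        ∑ f ∈ (Cf Z (Fin N)).filter (fun f => nr (sp Z f) ≤ X), (if v ∈ sp Z f then G f else 0) :=
      Finset.sum_filter _ _
    rw [e2, e3, pow_two (∑ f ∈ (Cf Z (Fin N)).filter (fun f => nr (sp Z f) ≤ X), (if v ∈ sp Z f then G f else 0)),
      Finset.sum_mul_sum, Finset.mul_sum]
    refine Finset.sum_congr rfl fun f _ => ?_
    rw [Finset.mul_sum]
    refine Finset.sum_congr rfl fun f' _ => ?_
    by_cases g1 : v ∈ sp Z f
    · by_cases g2 : v ∈ sp Z f'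
      · rw [if_pos ⟨g1, g2⟩, if_pos g1, if_pos g2]
      · rw [if_neg (fun h => g2 h.2), if_neg g2, mul_zero, mul_zero]
    · rw [if_neg (fun h => g1 h.1), if_neg g1, zero_mul, mul_zero]
  rw [swap]
  have h5 : ∀ v ∈ P, X ^ 2 * (∑ f ∈ (Cf Z (Fin N)).filter (fun f => nr (sp Z f) ≤ X ∧ v ∈ sp Z f), G f) ^ 2 ≤
      X ^ 2 * ((N * b) ^ 2 * S ^ 2) * ((nm v : ℝ)⁻¹) ^ 2 := by
    intro v _
    have e1 := pow_le_pow_left₀ (Finset.sum_nonneg fun f _ => hG0 f) (hSY v) 2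
    calc X ^ 2 * (∑ f ∈ (Cf Z (Fin N)).filter (fun f => nr (sp Z f) ≤ X ∧ v ∈ sp Z f), G f) ^ 2
        ≤ X ^ 2 * ((N * b) * (nm v : ℝ)⁻¹ * S) ^ 2 := mul_le_mul_of_nonneg_left e1 (by positivity)
      _ = X ^ 2 * ((N * b) ^ 2 * S ^ 2) * ((nm v : ℝ)⁻¹) ^ 2 := by ring
  have h6 : (0 : ℝ) ≤ (N * b) ^ 2 * C₁ ^ 2 * C₂ := by positivity
  calc ∑ v ∈ P, X ^ 2 * (∑ f ∈ (Cf Z (Fin N)).filter (fun f => nr (sp Z f) ≤ X ∧ v ∈ sp Z f), G f) ^ 2
      ≤ ∑ v ∈ P, X ^ 2 * ((N * b) ^ 2 * S ^ 2) * ((nm v : ℝ)⁻¹) ^ 2 := Finset.sum_le_sum h5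
    _ = X ^ 2 * ((N * b) ^ 2 * S ^ 2) * ∑ v ∈ P, ((nm v : ℝ)⁻¹) ^ 2 := by rw [Finset.mul_sum]
    _ ≤ X ^ 2 * ((N * b) ^ 2 * S ^ 2) * (C₂ * Real.log Y / T) :=
        mul_le_mul_of_nonneg_left (h₂ Y T hY hT) (by positivity)
    _ = X ^ 2 * (((N * b) ^ 2 * C₁ ^ 2 * C₂) * Real.log Y ^ (2 * C₁ + 1)) / T := by
        have e1 : Real.log Y ^ (2 * C₁ + 1) = (Real.log Y ^ C₁) ^ 2 * Real.log Y := by
          rw [Real.rpow_add (by linarith), Real.rpow_one, mul_comm 2 C₁, Real.rpow_mul (by linarith)]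
          norm_num
        rw [e1, hS]
        ring
    _ ≤ X ^ 2 * (((N * b) ^ 2 * C₁ ^ 2 * C₂ + 2 * C₁ + 1) *
          Real.log Y ^ ((N * b) ^ 2 * C₁ ^ 2 * C₂ + 2 * C₁ + 1)) / T := by
        refine div_le_div_of_nonneg_right (mul_le_mul_of_nonneg_left ?_ (by positivity)) hT.le
        refine mul_le_mul (by linarith) (Real.rpow_le_rpow_of_exponent_le hlY (by linarith)) (by positivity) (by linarith)

end H1.ENG
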