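import Pool.Agent.H1.ENG.E2b

/-!
# [H1 ENG E2] `Ng → Sm`

Notation as in E2b, `E`, `e` fixed with `nr E ≤ (log Y)^A₁`, `#E ≤ 2 A₁ ℓ` (`card_ll`), `d = finrank ℚ K`.
(1) SIZE. By `hb` every term is `≤ C^(#T+#E+2)`, `#UU ≤ d Y / nr T` (`pb_card`), so the `f` with `#T > B ℓ` contribute `≤ Y (log Y)^(-A-1)` (`cn2`, `b = C`, exponent `A + 2 + C₂`, `C^(#E+2) ≤ (log Y)^(C₂)` by `pow_ll`), `B` fixed. Keep `R' = {f ∈ RX, #T ≤ B ℓ}`.
(2) BLOCKS. `UU D T₀ Y E T` is the disjoint union of the `Ub D Y (T₀ 2^k) E T`, `k < J`, `T₀ 2^J ≥ Y` (`J ≤ 5 log Y`: H1.BD.grid with `δ = 1` and H1.BD.ixx, or directly). So the sum is `∑_{k<J} D_k`, `D_k = ∑_{f ∈ R'} wt f ∑_{u ∈ Ub D Y W E T} X(f,u)`, `W = T₀ 2^k`; only `f` with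
`nr T ≤ Y / W` contribute (otherwise `Ub` is empty), and `D_k = 0` if `W > Y`.
(3) `cau` (Cn4) with `R = R' ∩ {nr T ≤ Y / W}`, `U = (ZZ D Y).filter (W < nm u ≤ 2 W)`, `#U ≤ 2 d W` (`pb_card`): `‖D_k‖² ≤ 2 d W ∑_{f,f'} ‖∑_{u ∈ Ub T ∩ Ub T'} X(f,u) conj X(f',u)‖`. The pairs without common prime of norm `> T₀`: `pairs` (E2b) with `A₂ = 2 A + 6`:
`≤ 2 d W * W (Y/W)² (log Y)^(-A₂) = 2 d Y² (log Y)^(-A₂)`. The pairs with a common prime of norm `> T₀`: trivially `‖∑_u‖ ≤ 2 d W C^(#T+#E+2) C^(#T'+#E+2)`, `cn4` with `b = C`, `X = Y / W`, `T = T₀`: `≤ 4 d² W² C^(2 #E + 4) (Y/W)² C' (log Y)^(C') / T₀ ≤ Y² (log Y)^(-A₂)`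
for large `Y` (`T₀ = exp ((log Y)^ε)`, `C^(#E + 2) ≤ (log Y)^(C₂)`). So `‖D_k‖ ≤ Y (log Y)^(-A-2)`, and `J ≤ 5 log Y`.
-/

set_option autoImplicit false
set_option linter.dupNamespace false

open scoped NumberField ComplexConjugate
open IsDedekindDomain
open scoped Classical

noncomputable section

namespace H1.ENG

open H63.MA H38.ML H38.BB H38.BG H57.PC H57.BRA H77.PC3 H77.WD Pool.Agent.H19.NF Pool.Agent.H19.AB
  H86.AP H57.GP H35.CF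

/-- powers of the logarithm are below `exp ((log Y)^ε)` -/
private theorem e2_exp (κ a ε : ℝ) (hε : 0 < ε) : ∃ Y₀ : ℝ, ∀ Y : ℝ, Y₀ ≤ Y →
    κ * Real.log Y ^ a ≤ Real.exp (Real.log Y ^ ε) := by
  have h1 : Filter.Tendsto (fun Y : ℝ => Real.log Y ^ ε) Filter.atTop Filter.atTop :=
    (tendsto_rpow_atTop hε).comp Real.tendsto_log_atTop
  have h2 := (isLittleO_rpow_exp_atTop (a / ε)).bound
    (show (0 : ℝ) < (|κ| + 1)⁻¹ by positivity)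
  have h3 := h1.eventually h2
  have h4 := Real.tendsto_log_atTop.eventually_ge_atTop 1
  obtain ⟨Y₀, hY₀⟩ := Filter.eventually_atTop.1 (h3.and h4)
  refine ⟨Y₀, fun Y hY => ?_⟩
  obtain ⟨h5, h6⟩ := hY₀ Y hY
  have h7 : (0 : ℝ) ≤ Real.log Y := by linarith
  rw [Real.norm_eq_abs, Real.norm_eq_abs, Real.abs_exp, ← Real.rpow_mul h7,
    mul_div_cancel₀ _ hε.ne', abs_of_nonneg (Real.rpow_nonneg h7 _)] at h5
  have h8 : (0 : ℝ) ≤ Real.log Y ^ a := Real.rpow_nonneg h7 _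
  have h9 : (0 : ℝ) < |κ| + 1 := by positivity
  calc κ * Real.log Y ^ a ≤ (|κ| + 1) * Real.log Y ^ a :=
        mul_le_mul_of_nonneg_right ((le_abs_self κ).trans (by linarith)) h8
    _ ≤ (|κ| + 1) * ((|κ| + 1)⁻¹ * Real.exp (Real.log Y ^ ε)) :=
        mul_le_mul_of_nonneg_left h5 h9.le
    _ = Real.exp (Real.log Y ^ ε) := by
        rw [← mul_assoc, mul_inv_cancel₀ h9.ne', one_mul]

private theorem e2_log (κ : ℝ) : ∃ Y₀ : ℝ, ∀ Y : ℝ, Y₀ ≤ Y → κ ≤ Real.log Y := by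
  obtain ⟨Y₀, h⟩ := Filter.eventually_atTop.1 (Real.tendsto_log_atTop.eventually_ge_atTop κ)
  exact ⟨Y₀, h⟩

private theorem e2_card {V : Type} (u : V) (T E : Finset V) :
    (insert u (T ∪ E)).card + 1 ≤ T.card + (E.card + 2) := by
  have h1 := Finset.card_insert_le u (T ∪ E)
  have h2 := Finset.card_union_le T E
  omega

section ub

variable {K : Type} [Field K] [NumberField K] {p : ℕ} {ζ : K} (D : RD0 K p ζ)

private theorem e2_ub (Y W : ℝ) (E T : Finset (Pl K)) :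
    Ub D Y W E T ⊆ H57.AN.PB K (2 * W) := by
  intro u hu
  unfold Ub at hu
  rw [Finset.mem_filter] at hu
  rw [H57.AN.mem_PB]
  exact hu.2.2.2.1

private theorem e2_ub_empty {Y W : ℝ} (hW : 0 < W) (E T : Finset (Pl K)) (h : ¬ nr T ≤ Y / W) :
    Ub D Y W E T = ∅ := by
  rw [Finset.eq_empty_iff_forall_notMem]
  intro u hu
  unfold Ub at hu
  rw [Finset.mem_filter] at hu
  obtain ⟨-, -, h1, -, h2⟩ := hu
  apply h
  rw [le_div_iff₀ hW]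
  have h3 := one_le_nr T
  nlinarith

private theorem e2_ub_empty' {Y W : ℝ} (hW : Y < W) (E T : Finset (Pl K)) :
    Ub D Y W E T = ∅ := by
  rw [Finset.eq_empty_iff_forall_notMem]
  intro u hu
  unfold Ub ZZ at hu
  rw [Finset.mem_filter, Finset.mem_sdiff, Finset.mem_filter, H57.AN.mem_PB] at hu
  linarith [hu.1.1.1, hu.2.2.1]

private theorem e2_uu (T₀ Y : ℝ) (E T : Finset (Pl K)) :
    UU D T₀ Y E T ⊆ H57.AN.PB K (Y / nr T) := by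
  intro u hu
  unfold H86.AP.UU at hu
  rw [Finset.mem_filter] at hu
  rw [H57.AN.mem_PB]
  have h3 := one_le_nr T
  rw [le_div_iff₀ (by linarith)]
  linarith [hu.2.2.2]

/-- the dyadic blocks -/
private theorem e2_blocks {T₀ : ℝ} (hT : 1 ≤ T₀) (Y : ℝ) (E T : Finset (Pl K)) (F : Pl K → ℂ)
    (J : ℕ) :
    ∑ u ∈ (UU D T₀ Y E T).filter (fun u => (nm u : ℝ) ≤ T₀ * 2 ^ J), F u =
      ∑ k ∈ Finset.range J, ∑ u ∈ Ub D Y (T₀ * 2 ^ k) E T, F u := by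
  induction J with
  | zero =>
    rw [Finset.sum_range_zero]
    apply Finset.sum_eq_zero
    intro u hu
    rw [Finset.mem_filter] at hu
    unfold H86.AP.UU at hu
    rw [Finset.mem_filter] at hu
    have h1 := hu.2
    rw [pow_zero, mul_one] at h1
    linarith [hu.1.2.2.1]
  | succ J ih =>
    rw [Finset.sum_range_succ, ← ih, ← Finset.sum_union]
    · apply Finset.sum_congr _ fun _ _ => rfl
      ext u
      unfold H86.AP.UU Ub
      simp only [Finset.mem_filter, Finset.mem_union]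
      have h2 : T₀ * 2 ^ (J + 1) = 2 * (T₀ * 2 ^ J) := by ring
      have h3 : T₀ ≤ T₀ * 2 ^ J := by
        have : (1 : ℝ) ≤ 2 ^ J := one_le_pow₀ (by norm_num)
        nlinarith
      rw [h2]
      constructor
      · rintro ⟨⟨h4, h5, h6, h7⟩, h8⟩
        by_cases h9 : (nm u : ℝ) ≤ T₀ * 2 ^ J
        · exact Or.inl ⟨⟨h4, h5, h6, h7⟩, h9⟩
        · exact Or.inr ⟨h4, h5, not_le.1 h9, h8, h7⟩
      · rintro (⟨⟨h4, h5, h6, h7⟩, h8⟩ | ⟨h4, h5, h6, h7, h8⟩)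
        · exact ⟨⟨h4, h5, h6, h7⟩, by linarith⟩
        · exact ⟨⟨h4, h5, by linarith, h8⟩, h7⟩
    · rw [Finset.disjoint_left]
      intro u hu hu'
      unfold Ub at hu'
      rw [Finset.mem_filter] at hu hu'
      linarith [hu.2, hu'.2.2.1]

end ub

variable {p N : ℕ} [NeZero N] {K : IntermediateField ℚ QBar} [NumberField K] {ζ : K}

/-- one block -/
theorem blk (hp : p.Prime) (hp2 : p ≠ 2) (hζ : IsPrimitiveRoot ζ p) (D : RD0 K p ζ)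
    (L : LDs D QBar) (Fr : FR L) {P : Type} [Group P] (c : CL p N P) (j₀ : Fin N)
    (X : Finset (Pl K) → (Pl K → P) → ℂ)
    (hX : Ng L Fr c j₀ X) {C : ℝ} (hC : 1 ≤ C) (hb : ∀ T γ, ‖X T γ‖ ≤ C ^ (T.card + 1))
    (B A A₁ : ℕ) (ε : ℝ) (hε : 0 < ε) :
    ∃ Y₀ : ℝ, ∀ Y : ℝ, Y₀ ≤ Y → ∀ (E : Finset (Pl K)) (e : Pl K → P), (∀ v ∈ E, v ∉ D.S0) →
      nr E ≤ Real.log Y ^ A₁ → ∀ W : ℝ, Real.exp (Real.log Y ^ ε) ≤ W → W ≤ Y →
      ∀ wt : (Pl K → Option (Fin N)) → ℝ, (∀ f, 0 ≤ wt f ∧ wt f ≤ 1) →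
      ‖∑ f ∈ (RX D j₀ (Real.exp (Real.log Y ^ ε)) Y E).filter (fun f =>
          ((sp (ZZ D Y \ E) f).card : ℝ) ≤ B * Real.log (Real.log Y)), (wt f : ℂ) *
        ∑ u ∈ Ub D Y W E (sp (ZZ D Y \ E) f),
          X (insert u (sp (ZZ D Y \ E) f ∪ E)) (Function.update (gl c E e f) u (c.g j₀))‖ ≤
        Y * Real.log Y ^ (-(A : ℝ)) := by
  have hC0 : (0 : ℝ) ≤ C := by linarith
  obtain ⟨Y₁, hY₁⟩ := pairs hp hp2 hζ D L Fr c j₀ X hX B (2 * A + 6) A₁ ε hε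
  obtain ⟨C', hC', hcn⟩ := cn4 K N C hC0
  obtain ⟨C₂, Y₂, hC₂⟩ := pow_ll (C ^ 4) (one_le_pow₀ hC) (2 * A₁)
  set d : ℝ := (Module.finrank ℚ K : ℝ) with hd
  have hd0 : 0 ≤ d := Nat.cast_nonneg _
  obtain ⟨Y₃, hY₃⟩ := e2_exp (8 * d ^ 2 * C') (C₂ + C' + 2 * A) ε hε
  obtain ⟨Y₄, hY₄⟩ := e2_log (4 * d + 1)
  refine ⟨max (max Y₁ Y₂) (max (max Y₃ Y₄) (Real.exp (Real.exp 1))),
    fun Y hY E e hE hnE W hW1 hW2 wt hwt => ?_⟩
  have hY1 : Y₁ ≤ Y := (le_max_left _ _).trans ((le_max_left _ _).trans hY)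
  have hY2 : Y₂ ≤ Y := (le_max_right _ _).trans ((le_max_left _ _).trans hY)
  have hY3 : Y₃ ≤ Y :=
    (le_max_left _ _).trans ((le_max_left _ _).trans ((le_max_right _ _).trans hY))
  have hY4 : Y₄ ≤ Y :=
    (le_max_right _ _).trans ((le_max_left _ _).trans ((le_max_right _ _).trans hY))
  have hY5 : Real.exp (Real.exp 1) ≤ Y := (le_max_right _ _).trans ((le_max_right _ _).trans hY)
  obtain ⟨h3Y, hlY, hllY⟩ := loglog hY5
  have hY0 : (0 : ℝ) < Y := by linarith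
  set T₀ : ℝ := Real.exp (Real.log Y ^ ε) with hT₀
  set ℓ : ℝ := Real.log Y with hℓ
  have hℓ1 : 1 ≤ ℓ := le_trans (by have := Real.add_one_le_exp (1 : ℝ); linarith) hlY
  have hℓ0 : 0 < ℓ := by linarith
  have hT1 : 1 ≤ T₀ := by
    rw [hT₀]
    exact Real.one_le_exp (Real.rpow_nonneg hℓ0.le _)
  have hT0 : 0 < T₀ := by linarith
  have hW0 : 0 < W := by linarith
  have hW1' : 1 ≤ W := by linarith
  set Z : Finset (Pl K) := ZZ D Y \ E with hZ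
  have hZY : ∀ v ∈ Z, (nm v : ℝ) ≤ Y := by
    intro v hv
    rw [hZ, Finset.mem_sdiff] at hv
    unfold ZZ at hv
    rw [Finset.mem_filter, H57.AN.mem_PB] at hv
    exact hv.1.1
  set R : Finset (Pl K → Option (Fin N)) := (RX D j₀ T₀ Y E).filter (fun f =>
    ((sp Z f).card : ℝ) ≤ B * Real.log ℓ ∧ nr (sp Z f) ≤ Y / W) with hR
  set a : (Pl K → Option (Fin N)) → Pl K → ℂ := fun f u =>
    X (insert u (sp Z f ∪ E)) (Function.update (gl c E e f) u (c.g j₀)) with ha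
  -- the terms with `nr T > Y / W` vanish
  have e1 : ∑ f ∈ (RX D j₀ T₀ Y E).filter (fun f => ((sp Z f).card : ℝ) ≤ B * Real.log ℓ),
      (wt f : ℂ) * ∑ u ∈ Ub D Y W E (sp Z f), a f u =
      ∑ f ∈ R, (wt f : ℂ) * ∑ u ∈ Ub D Y W E (sp Z f), a f u := by
    symm
    apply Finset.sum_subset
    · intro f hf
      rw [hR, Finset.mem_filter] at hf
      rw [Finset.mem_filter]
      exact ⟨hf.1, hf.2.1⟩
    · intro f hf hf'
      rw [Finset.mem_filter] at hf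
      have h1 : ¬ nr (sp Z f) ≤ Y / W := by
        intro h2
        apply hf'
        rw [hR, Finset.mem_filter]
        exact ⟨hf.1, hf.2, h2⟩
      rw [e2_ub_empty D hW0 E _ h1, Finset.sum_empty, mul_zero]
  rw [e1]
  -- Cauchy
  have e2 := cau R (H57.AN.PB K (2 * W)) (fun f => Ub D Y W E (sp Z f))
    (fun f _ => e2_ub D Y W E (sp Z f)) wt (fun f _ => hwt f) a
  have e3 : ((H57.AN.PB K (2 * W)).card : ℝ) ≤ d * (2 * W) :=
    H1.PN.pb_card (2 * W) (by linarith)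
  -- the pairs
  have e4 : ∑ f ∈ R, ∑ f' ∈ R, ‖∑ u ∈ Ub D Y W E (sp Z f) ∩ Ub D Y W E (sp Z f'),
      a f u * conj (a f' u)‖ ≤ W * (Y / W) ^ 2 * ℓ ^ (-((2 * A + 6 : ℕ) : ℝ)) +
        d * (2 * W) * ℓ ^ C₂ * ((Y / W) ^ 2 * (C' * ℓ ^ C') / T₀) := by
    have f1 : ∀ f ∈ R, ∑ f' ∈ R, ‖∑ u ∈ Ub D Y W E (sp Z f) ∩ Ub D Y W E (sp Z f'),
        a f u * conj (a f' u)‖ =
        ∑ f' ∈ (RX D j₀ T₀ Y E).filter (fun f' =>
          (((sp Z f').card : ℝ) ≤ B * Real.log ℓ ∧ nr (sp Z f') ≤ Y / W) ∧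
          ¬ ∃ v ∈ sp Z f, v ∈ sp Z f' ∧ T₀ < (nm v : ℝ)),
          ‖∑ u ∈ Ub D Y W E (sp Z f) ∩ Ub D Y W E (sp Z f'), a f u * conj (a f' u)‖ +
        ∑ f' ∈ R.filter (fun f' => ∃ v ∈ sp Z f, v ∈ sp Z f' ∧ T₀ < (nm v : ℝ)),
          ‖∑ u ∈ Ub D Y W E (sp Z f) ∩ Ub D Y W E (sp Z f'), a f u * conj (a f' u)‖ := by
      intro f _
      rw [← Finset.sum_filter_add_sum_filter_not R
        (fun f' => ∃ v ∈ sp Z f, v ∈ sp Z f' ∧ T₀ < (nm v : ℝ)), add_comm]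
      congr 1
      rw [hR, Finset.filter_filter]
    rw [Finset.sum_congr rfl f1, Finset.sum_add_distrib]
    refine add_le_add ?_ ?_
    · exact hY₁ Y hY1 E e hE hnE W hW1 hW2
    · -- the pairs with a common prime
      have g1 : ∀ f ∈ R, ∀ f' ∈ R, ‖∑ u ∈ Ub D Y W E (sp Z f) ∩ Ub D Y W E (sp Z f'),
          a f u * conj (a f' u)‖ ≤
          d * (2 * W) * ℓ ^ C₂ * (C ^ (sp Z f).card * C ^ (sp Z f').card) := by
        intro f _ f' _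
        have g2 : ∀ (h : Pl K → Option (Fin N)) (u : Pl K),
            ‖a h u‖ ≤ C ^ (sp Z h).card * C ^ (E.card + 2) := by
          intro h u
          rw [← pow_add]
          exact (hb _ _).trans (pow_le_pow_right₀ hC (e2_card u (sp Z h) E))
        have g3 : ∀ u ∈ Ub D Y W E (sp Z f) ∩ Ub D Y W E (sp Z f'),
            ‖a f u * conj (a f' u)‖ ≤
              (C ^ (sp Z f).card * C ^ (E.card + 2)) * (C ^ (sp Z f').card * C ^ (E.card + 2)) := by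
          intro u _
          rw [norm_mul, RCLike.norm_conj]
          exact mul_le_mul (g2 f u) (g2 f' u) (norm_nonneg _) (by positivity)
        refine (norm_sum_le_of_le _ g3).trans ?_
        rw [Finset.sum_const, nsmul_eq_mul]
        have g4 : ((Ub D Y W E (sp Z f) ∩ Ub D Y W E (sp Z f')).card : ℝ) ≤ d * (2 * W) := by
          refine le_trans ?_ e3
          exact_mod_cast Finset.card_le_card (Finset.inter_subset_left.trans (e2_ub D Y W E _))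
        have g5 : C ^ (E.card + 2) * C ^ (E.card + 2) ≤ ℓ ^ C₂ := by
          refine le_trans ?_ (hC₂ Y hY2 E.card ?_)
          · have : C ^ (E.card + 2) * C ^ (E.card + 2) = C ^ 4 * (C ^ 2) ^ E.card := by
              rw [← pow_add, ← pow_mul, ← pow_add]
              congr 1
              ring
            rw [this]
            refine mul_le_mul_of_nonneg_left ?_ (by positivity)
            exact pow_le_pow_left₀ (by positivity) (pow_le_pow_right₀ hC (by norm_num)) _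
          · have := card_ll E A₁ hY5 hnE
            push_cast
            exact this
        calc ((Ub D Y W E (sp Z f) ∩ Ub D Y W E (sp Z f')).card : ℝ) *
              ((C ^ (sp Z f).card * C ^ (E.card + 2)) * (C ^ (sp Z f').card * C ^ (E.card + 2)))
            ≤ (d * (2 * W)) *
              ((C ^ (sp Z f).card * C ^ (E.card + 2)) * (C ^ (sp Z f').card * C ^ (E.card + 2))) :=
              mul_le_mul_of_nonneg_right g4 (by positivity)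
          _ = (d * (2 * W)) * (C ^ (E.card + 2) * C ^ (E.card + 2)) *
              (C ^ (sp Z f).card * C ^ (sp Z f').card) := by ring
          _ ≤ d * (2 * W) * ℓ ^ C₂ * (C ^ (sp Z f).card * C ^ (sp Z f').card) := by
              refine mul_le_mul_of_nonneg_right ?_ (by positivity)
              exact mul_le_mul_of_nonneg_left g5 (by positivity)
      have g6 : ∑ f ∈ R, ∑ f' ∈ R.filter (fun f' => ∃ v ∈ sp Z f, v ∈ sp Z f' ∧ T₀ < (nm v : ℝ)),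
          ‖∑ u ∈ Ub D Y W E (sp Z f) ∩ Ub D Y W E (sp Z f'), a f u * conj (a f' u)‖ ≤
          ∑ f ∈ R, ∑ f' ∈ R.filter (fun f' => ∃ v ∈ sp Z f, v ∈ sp Z f' ∧ T₀ < (nm v : ℝ)),
            d * (2 * W) * ℓ ^ C₂ * (C ^ (sp Z f).card * C ^ (sp Z f').card) :=
        Finset.sum_le_sum fun f hf => Finset.sum_le_sum fun f' hf' =>
          g1 f hf f' (Finset.mem_filter.1 hf').1
      refine g6.trans ?_
      simp_rw [← Finset.mul_sum]
      refine mul_le_mul_of_nonneg_left ?_ (by positivity)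
      have g7 := hcn Z Y (Y / W) T₀ h3Y hT0 (by positivity)
        (div_le_self hY0.le hW1') hZY
      refine le_trans ?_ g7
      have hsub : R ⊆ (Cf Z (Fin N)).filter (fun f => nr (sp Z f) ≤ Y / W) := by
        intro f hf
        rw [hR, Finset.mem_filter] at hf
        rw [Finset.mem_filter]
        have h1 := hf.1
        unfold RX at h1
        rw [Finset.mem_filter] at h1
        exact ⟨h1.1, hf.2.2⟩
      have g8 : ∀ f ∈ R, ∑ f' ∈ R.filter (fun f' => ∃ v ∈ sp Z f, v ∈ sp Z f' ∧ T₀ < (nm v : ℝ)),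
          C ^ (sp Z f).card * C ^ (sp Z f').card ≤
          ∑ f' ∈ (Cf Z (Fin N)).filter (fun f' =>
            nr (sp Z f') ≤ Y / W ∧ ∃ v ∈ sp Z f, v ∈ sp Z f' ∧ T₀ < (nm v : ℝ)),
            C ^ (sp Z f).card * C ^ (sp Z f').card := by
        intro f _
        refine Finset.sum_le_sum_of_subset_of_nonneg (fun f' hf' => ?_) fun f' _ _ => by positivity
        rw [Finset.mem_filter] at hf'
        have h1 := hsub hf'.1
        rw [Finset.mem_filter] at h1 ⊢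
        exact ⟨h1.1, h1.2, hf'.2⟩
      simp_rw [Finset.mul_sum]
      refine (Finset.sum_le_sum g8).trans ?_
      refine Finset.sum_le_sum_of_subset_of_nonneg hsub fun f _ _ => ?_
      exact Finset.sum_nonneg fun f' _ => by positivity
  -- conclusion
  have hmain : ‖∑ f ∈ R, (wt f : ℂ) * ∑ u ∈ Ub D Y W E (sp Z f), a f u‖ ^ 2 ≤
      (Y * ℓ ^ (-(A : ℝ))) ^ 2 := by
    refine e2.trans ?_
    have k0 : 0 ≤ ∑ f ∈ R, ∑ f' ∈ R, ‖∑ u ∈ Ub D Y W E (sp Z f) ∩ Ub D Y W E (sp Z f'),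
      a f u * conj (a f' u)‖ := Finset.sum_nonneg fun f _ => Finset.sum_nonneg fun f' _ =>
        norm_nonneg _
    refine (mul_le_mul e3 e4 k0 (by positivity)).trans ?_
    have k1 : ℓ ^ (-((2 * A + 6 : ℕ) : ℝ)) = (ℓ ^ (2 * A))⁻¹ * (ℓ ^ 6)⁻¹ := by
      rw [Real.rpow_neg hℓ0.le, Real.rpow_natCast, pow_add, mul_inv]
    have k2 : ℓ ^ (-(A : ℝ)) = (ℓ ^ A)⁻¹ := by
      rw [Real.rpow_neg hℓ0.le, Real.rpow_natCast]
    have k3 : d * (2 * W) * (W * (Y / W) ^ 2 * ((ℓ ^ (2 * A))⁻¹ * (ℓ ^ 6)⁻¹) +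
        d * (2 * W) * ℓ ^ C₂ * ((Y / W) ^ 2 * (C' * ℓ ^ C') / T₀)) =
        Y ^ 2 * (2 * d * ((ℓ ^ (2 * A))⁻¹ * (ℓ ^ 6)⁻¹) + 4 * d ^ 2 * (ℓ ^ C₂ * (C' * ℓ ^ C')) / T₀) := by
      field_simp
      ring
    rw [k1, k2, k3, mul_pow]
    refine mul_le_mul_of_nonneg_left ?_ (by positivity)
    have k4 : ((ℓ ^ A)⁻¹) ^ 2 = (ℓ ^ (2 * A))⁻¹ := by
      rw [inv_pow, ← pow_mul, mul_comm A 2]
    rw [k4]
    have k5 : 2 * d * ((ℓ ^ (2 * A))⁻¹ * (ℓ ^ 6)⁻¹) ≤ (ℓ ^ (2 * A))⁻¹ / 2 := by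
      have k6 : 4 * d ≤ ℓ ^ 6 := by
        have := hY₄ Y hY4
        have h2 : ℓ ≤ ℓ ^ 6 := le_self_pow₀ hℓ1 (by norm_num)
        linarith
      have k7 : 2 * d * (ℓ ^ 6)⁻¹ ≤ 1 / 2 := by
        rw [← div_eq_mul_inv, div_le_iff₀ (by positivity)]
        linarith
      have k8 : (0 : ℝ) < (ℓ ^ (2 * A))⁻¹ := by positivity
      calc 2 * d * ((ℓ ^ (2 * A))⁻¹ * (ℓ ^ 6)⁻¹) = (ℓ ^ (2 * A))⁻¹ * (2 * d * (ℓ ^ 6)⁻¹) := by ring
        _ ≤ (ℓ ^ (2 * A))⁻¹ * (1 / 2) := mul_le_mul_of_nonneg_left k7 k8.le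
        _ = (ℓ ^ (2 * A))⁻¹ / 2 := by ring
    have k9 : 4 * d ^ 2 * (ℓ ^ C₂ * (C' * ℓ ^ C')) / T₀ ≤ (ℓ ^ (2 * A))⁻¹ / 2 := by
      have k10 := hY₃ Y hY3
      have k11 : ℓ ^ ((C₂ : ℝ) + C' + 2 * A) = ℓ ^ C₂ * ℓ ^ C' * ℓ ^ (2 * A) := by
        rw [Real.rpow_add hℓ0, Real.rpow_add hℓ0, Real.rpow_natCast]
        congr 1
        rw [← Real.rpow_natCast]
        push_cast
        rfl
      rw [← hℓ, ← hT₀, k11] at k10
      rw [div_le_iff₀ hT0]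
      have k12 : (0 : ℝ) < (ℓ ^ (2 * A))⁻¹ := by positivity
      have k13 : (ℓ ^ (2 * A))⁻¹ * ℓ ^ (2 * A) = 1 := inv_mul_cancel₀ (by positivity)
      calc 4 * d ^ 2 * (ℓ ^ C₂ * (C' * ℓ ^ C')) =
            ((ℓ ^ (2 * A))⁻¹ * ℓ ^ (2 * A)) * (4 * d ^ 2 * (ℓ ^ C₂ * (C' * ℓ ^ C'))) := by
              rw [k13, one_mul]
        _ = (ℓ ^ (2 * A))⁻¹ / 2 * (8 * d ^ 2 * C' * (ℓ ^ C₂ * ℓ ^ C' * ℓ ^ (2 * A))) := by ring
        _ ≤ (ℓ ^ (2 * A))⁻¹ / 2 * T₀ := mul_le_mul_of_nonneg_left k10 (by positivity)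
    linarith
  exact abs_le_of_sq_le_sq' hmain (by positivity) |>.2

theorem eng2 (hp : p.Prime) (hp2 : p ≠ 2) (hζ : IsPrimitiveRoot ζ p) (D : RD0 K p ζ)
    (L : LDs D QBar) (Fr : FR L) {P : Type} [Group P] (c : CL p N P) (j₀ : Fin N)
    (X : Finset (Pl K) → (Pl K → P) → ℂ) (hX : Ng L Fr c j₀ X) {C : ℝ} (hC : 1 ≤ C)
    (hb : ∀ T γ, ‖X T γ‖ ≤ C ^ (T.card + 1)) : Sm D c j₀ X := by
  intro ε A A₁ hε
  have hC0 : (0 : ℝ) ≤ C := by linarith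
  set d : ℝ := (Module.finrank ℚ K : ℝ) with hd
  have hd0 : 0 ≤ d := Nat.cast_nonneg _
  obtain ⟨C₂, Y₁, hC₂⟩ := pow_ll (C ^ 2) (one_le_pow₀ hC) (2 * A₁)
  obtain ⟨B, C'', -, hC'', hcn⟩ := cn2 K N C hC0 ((A + 2 + C₂ : ℕ) : ℝ)
  obtain ⟨Y₂, hY₂⟩ := blk hp hp2 hζ D L Fr c j₀ X hX hC hb B (A + 3) A₁ ε hε
  obtain ⟨Y₃, hY₃⟩ := e2_log (2 * d * C'' + 6)
  refine ⟨max (max Y₁ Y₂) (max Y₃ (Real.exp (Real.exp 1))), fun Y hY E e hE hnE wt hwt => ?_⟩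
  have hY1 : Y₁ ≤ Y := (le_max_left _ _).trans ((le_max_left _ _).trans hY)
  have hY2 : Y₂ ≤ Y := (le_max_right _ _).trans ((le_max_left _ _).trans hY)
  have hY3 : Y₃ ≤ Y := (le_max_left _ _).trans ((le_max_right _ _).trans hY)
  have hY5 : Real.exp (Real.exp 1) ≤ Y := (le_max_right _ _).trans ((le_max_right _ _).trans hY)
  obtain ⟨h3Y, hlY, hllY⟩ := loglog hY5
  have hY0 : (0 : ℝ) < Y := by linarith
  have hBl := hY₂ Y hY2 E e hE hnE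
  have hBig := hY₃ Y hY3
  have hCn := hcn (ZZ D Y \ E) Y hY5
  set T₀ : ℝ := Real.exp (Real.log Y ^ ε) with hT₀
  have hTY : T₀ ≤ Y ∨ Y < T₀ := le_or_gt _ _
  set ℓ : ℝ := Real.log Y with hℓ
  have hℓ1 : 1 ≤ ℓ := le_trans (by have := Real.add_one_le_exp (1 : ℝ); linarith) hlY
  have hℓ0 : 0 < ℓ := by linarith
  have hT1 : 1 ≤ T₀ := by
    rw [hT₀]
    exact Real.one_le_exp (Real.rpow_nonneg hℓ0.le _)
  have hT0 : 0 < T₀ := by linarith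
  set Z : Finset (Pl K) := ZZ D Y \ E with hZ
  set a : (Pl K → Option (Fin N)) → Pl K → ℂ := fun f u =>
    X (insert u (sp Z f ∪ E)) (Function.update (gl c E e f) u (c.g j₀)) with ha
  have hk : ∀ n : ℕ, ℓ ^ (-(n : ℝ)) = (ℓ ^ n)⁻¹ := fun n => by
    rw [Real.rpow_neg hℓ0.le, Real.rpow_natCast]
  -- the number of blocks
  obtain ⟨J, hJ1, hJ2⟩ : ∃ J : ℕ, Y ≤ T₀ * 2 ^ J ∧ (J : ℝ) ≤ 3 * ℓ := by
    refine ⟨⌊2 * ℓ⌋₊ + 1, ?_, ?_⟩
    · have h1 : 2 * ℓ < (⌊2 * ℓ⌋₊ : ℝ) + 1 := Nat.lt_floor_add_one _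
      have h2 : Y ≤ (2 : ℝ) ^ (⌊2 * ℓ⌋₊ + 1) := by
        rw [← Real.rpow_natCast, ← Real.log_le_log_iff hY0 (by positivity),
          Real.log_rpow (by norm_num)]
        push_cast
        have h3 : (0.5 : ℝ) ≤ Real.log 2 := by
          have := Real.log_two_gt_d9
          linarith
        nlinarith
      have h4 : (0 : ℝ) ≤ (2 : ℝ) ^ (⌊2 * ℓ⌋₊ + 1) := by positivity
      nlinarith
    · push_cast
      have h1 : ((⌊2 * ℓ⌋₊ : ℕ) : ℝ) ≤ 2 * ℓ := Nat.floor_le (by linarith)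
      linarith
  -- the two parts
  have e1 : ∑ f ∈ RX D j₀ T₀ Y E, (wt f : ℂ) * ∑ u ∈ H86.AP.UU D T₀ Y E (sp Z f), a f u =
      ∑ f ∈ (RX D j₀ T₀ Y E).filter (fun f => ((sp Z f).card : ℝ) ≤ B * Real.log ℓ),
        (wt f : ℂ) * ∑ u ∈ H86.AP.UU D T₀ Y E (sp Z f), a f u +
      ∑ f ∈ (RX D j₀ T₀ Y E).filter (fun f => ¬ ((sp Z f).card : ℝ) ≤ B * Real.log ℓ),
        (wt f : ℂ) * ∑ u ∈ H86.AP.UU D T₀ Y E (sp Z f), a f u :=
    (Finset.sum_filter_add_sum_filter_not _ _ _).symm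
  have hE2 : C ^ (E.card + 2) ≤ ℓ ^ C₂ := by
    refine le_trans ?_ (hC₂ Y hY1 E.card ?_)
    · rw [pow_add, mul_comm]
      refine mul_le_mul_of_nonneg_left ?_ (by positivity)
      exact pow_le_pow_left₀ hC0 (le_self_pow₀ hC (by norm_num)) _
    · have := card_ll E A₁ hY5 hnE
      push_cast
      exact this
  -- large support
  have e2 : ‖∑ f ∈ (RX D j₀ T₀ Y E).filter (fun f => ¬ ((sp Z f).card : ℝ) ≤ B * Real.log ℓ),
      (wt f : ℂ) * ∑ u ∈ H86.AP.UU D T₀ Y E (sp Z f), a f u‖ ≤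
      d * C'' * Y * (ℓ ^ (A + 2))⁻¹ := by
    have g1 : ∀ f ∈ (RX D j₀ T₀ Y E).filter (fun f => ¬ ((sp Z f).card : ℝ) ≤ B * Real.log ℓ),
        ‖(wt f : ℂ) * ∑ u ∈ H86.AP.UU D T₀ Y E (sp Z f), a f u‖ ≤
          d * Y * ℓ ^ C₂ * (C ^ (sp Z f).card * (nr (sp Z f))⁻¹) := by
      intro f _
      have hnr := one_le_nr (sp Z f)
      have hnr0 : 0 < nr (sp Z f) := by linarith
      have g2 : ∀ u ∈ H86.AP.UU D T₀ Y E (sp Z f), ‖a f u‖ ≤ C ^ (sp Z f).card * ℓ ^ C₂ := by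
        intro u _
        refine (hb _ _).trans ((pow_le_pow_right₀ hC (e2_card u (sp Z f) E)).trans ?_)
        rw [pow_add]
        exact mul_le_mul_of_nonneg_left hE2 (by positivity)
      have g3 := norm_sum_le_of_le _ g2
      rw [Finset.sum_const, nsmul_eq_mul] at g3
      have g4 : ((H86.AP.UU D T₀ Y E (sp Z f)).card : ℝ) ≤ d * (Y / nr (sp Z f)) := by
        refine le_trans ?_ (H1.PN.pb_card (L := K) (Y / nr (sp Z f)) (by positivity))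
        exact_mod_cast Finset.card_le_card (e2_uu D T₀ Y E _)
      have g5 : ‖(wt f : ℂ)‖ ≤ 1 := by
        rw [Complex.norm_real, Real.norm_eq_abs, abs_of_nonneg (hwt f).1]
        exact (hwt f).2
      rw [norm_mul]
      calc ‖(wt f : ℂ)‖ * ‖∑ u ∈ H86.AP.UU D T₀ Y E (sp Z f), a f u‖
          ≤ 1 * (((H86.AP.UU D T₀ Y E (sp Z f)).card : ℝ) * (C ^ (sp Z f).card * ℓ ^ C₂)) :=
            mul_le_mul g5 g3 (norm_nonneg _) zero_le_one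
        _ ≤ 1 * ((d * (Y / nr (sp Z f))) * (C ^ (sp Z f).card * ℓ ^ C₂)) := by
            refine mul_le_mul_of_nonneg_left ?_ zero_le_one
            exact mul_le_mul_of_nonneg_right g4 (by positivity)
        _ = d * Y * ℓ ^ C₂ * (C ^ (sp Z f).card * (nr (sp Z f))⁻¹) := by
            rw [div_eq_mul_inv]
            ring
    refine (norm_sum_le_of_le _ g1).trans ?_
    rw [← Finset.mul_sum]
    have g6 : ∑ f ∈ (RX D j₀ T₀ Y E).filter (fun f => ¬ ((sp Z f).card : ℝ) ≤ B * Real.log ℓ),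
        C ^ (sp Z f).card * (nr (sp Z f))⁻¹ ≤ C'' * ℓ ^ (-((A + 2 + C₂ : ℕ) : ℝ)) := by
      refine le_trans ?_ hCn
      refine Finset.sum_le_sum_of_subset_of_nonneg (fun f hf => ?_) fun f _ _ => ?_
      · rw [Finset.mem_filter] at hf ⊢
        have h1 := hf.1
        unfold RX at h1
        rw [Finset.mem_filter] at h1
        exact ⟨h1.1, h1.2.2, not_le.1 hf.2⟩
      · have := one_le_nr (sp Z f)
        positivity
    refine (mul_le_mul_of_nonneg_left g6 (by positivity)).trans (le_of_eq ?_)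
    rw [hk, pow_add ℓ (A + 2) C₂, mul_inv]
    have : ℓ ^ C₂ ≠ 0 := by positivity
    field_simp
  -- small support
  have e3 : ‖∑ f ∈ (RX D j₀ T₀ Y E).filter (fun f => ((sp Z f).card : ℝ) ≤ B * Real.log ℓ),
      (wt f : ℂ) * ∑ u ∈ H86.AP.UU D T₀ Y E (sp Z f), a f u‖ ≤ J * (Y * ℓ ^ (-((A + 3 : ℕ) : ℝ))) := by
    have g1 : ∀ f ∈ (RX D j₀ T₀ Y E).filter (fun f => ((sp Z f).card : ℝ) ≤ B * Real.log ℓ),
        (wt f : ℂ) * ∑ u ∈ H86.AP.UU D T₀ Y E (sp Z f), a f u =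
        ∑ k ∈ Finset.range J, (wt f : ℂ) * ∑ u ∈ Ub D Y (T₀ * 2 ^ k) E (sp Z f), a f u := by
      intro f _
      rw [← Finset.mul_sum, ← e2_blocks D hT1 Y E (sp Z f) (a f) J]
      congr 1
      apply Finset.sum_congr _ fun _ _ => rfl
      symm
      apply Finset.filter_true_of_mem
      intro u hu
      unfold H86.AP.UU ZZ at hu
      rw [Finset.mem_filter, Finset.mem_sdiff, Finset.mem_filter, H57.AN.mem_PB] at hu
      exact hu.1.1.1.trans hJ1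
    rw [Finset.sum_congr rfl g1, Finset.sum_comm]
    have g2 : ∀ k ∈ Finset.range J,
        ‖∑ f ∈ (RX D j₀ T₀ Y E).filter (fun f => ((sp Z f).card : ℝ) ≤ B * Real.log ℓ),
          (wt f : ℂ) * ∑ u ∈ Ub D Y (T₀ * 2 ^ k) E (sp Z f), a f u‖ ≤
          Y * ℓ ^ (-((A + 3 : ℕ) : ℝ)) := by
      intro k _
      by_cases hk2 : T₀ * 2 ^ k ≤ Y
      · refine hBl (T₀ * 2 ^ k) ?_ hk2 wt hwt
        have h1 : (1 : ℝ) ≤ 2 ^ k := one_le_pow₀ (by norm_num)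
        nlinarith
      · rw [Finset.sum_eq_zero, norm_zero]
        · exact mul_nonneg hY0.le (Real.rpow_nonneg hℓ0.le _)
        · intro f _
          rw [e2_ub_empty' D (not_le.1 hk2), Finset.sum_empty, mul_zero]
    refine (norm_sum_le_of_le _ g2).trans (le_of_eq ?_)
    rw [Finset.sum_const, Finset.card_range, nsmul_eq_mul]
  rw [e1]
  refine (norm_add_le _ _).trans ((add_le_add e3 e2).trans ?_)
  rw [hk, hk, pow_add ℓ A 3, pow_add ℓ A 2, mul_inv, mul_inv]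
  have k1 : 0 < (ℓ ^ A)⁻¹ := by positivity
  have k2 : 3 * ℓ * (ℓ ^ 3)⁻¹ + d * C'' * (ℓ ^ 2)⁻¹ ≤ 1 := by
    have k3 : 3 * ℓ * (ℓ ^ 3)⁻¹ + d * C'' * (ℓ ^ 2)⁻¹ = (3 + d * C'') / ℓ ^ 2 := by
      field_simp
    rw [k3, div_le_one (by positivity)]
    have h2 : ℓ ≤ ℓ ^ 2 := le_self_pow₀ hℓ1 (by norm_num)
    have h3 : 0 ≤ d * C'' := by positivity
    nlinarith
  have k4 : (J : ℝ) * (Y * ((ℓ ^ A)⁻¹ * (ℓ ^ 3)⁻¹)) ≤ 3 * ℓ * (Y * ((ℓ ^ A)⁻¹ * (ℓ ^ 3)⁻¹)) :=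
    mul_le_mul_of_nonneg_right hJ2 (by positivity)
  calc (J : ℝ) * (Y * ((ℓ ^ A)⁻¹ * (ℓ ^ 3)⁻¹)) + d * C'' * Y * ((ℓ ^ A)⁻¹ * (ℓ ^ 2)⁻¹)
      ≤ 3 * ℓ * (Y * ((ℓ ^ A)⁻¹ * (ℓ ^ 3)⁻¹)) + d * C'' * Y * ((ℓ ^ A)⁻¹ * (ℓ ^ 2)⁻¹) := by linarith
    _ = Y * (ℓ ^ A)⁻¹ * (3 * ℓ * (ℓ ^ 3)⁻¹ + d * C'' * (ℓ ^ 2)⁻¹) := by ring
    _ ≤ Y * (ℓ ^ A)⁻¹ * 1 := mul_le_mul_of_nonneg_left k2 (by positivity)
    _ = Y * (ℓ ^ A)⁻¹ := mul_one _

end H1.ENG
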