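import Pool.Agent.H1.ENG.E1
import Pool.Agent.H1.ENG.Cn4

/-!
# [H1 ENG E2B] pairs of configurations without common large prime (one dyadic block)

Notation as in E1: `T = sp (ZZ D Y \ E) f`, `T' = sp (ZZ D Y \ E) f'`, `T₀ = exp ((log Y)^ε)`. `Ub D Y W E T` = the good primes `u ∉ T ∪ E`, `W < nm u ≤ 2 W`, `nr T * nm u ≤ Y`.
`pairs`: let `Nc` = the pairs `(f, f') ∈ RX × RX` with `#T, #T' ≤ B ℓ`, `nr T ≤ Y / W`, `nr T' ≤ Y / W`, without common prime of norm `> T₀`. Then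
`∑_{(f,f') ∈ Nc} ‖∑_{u ∈ Ub T ∩ Ub T'} X (insert u (T ∪ E)) .. * conj X (insert u (T' ∪ E)) ..‖ ≤ W (Y/W)² (log Y)^(-A)` for `T₀ ≤ W ≤ Y`, uniformly in `E`, `e` with `nr E ≤ (log Y)^A₁`.
Proof. `co` from `Ng` for `(T ∪ E, T' ∪ E)`: the product is `Ev L Fr H F (T ∪ E ∪ T' ∪ E) co u` for good `u ∉ T ∪ T' ∪ E`. `mr Θ F = 0` if `co Θ ≠ 0`: the prime of class `j ≠ j₀` of norm `> T₀` in `T` is not in `T' ∪ E`, and conversely.
`x₁ = min (2 W) (min (Y / nr T) (Y / nr T'))`: `Ub T ∩ Ub T'` is empty if `x₁ ≤ W`, otherwise it is `{u ∈ ZZ D x₁, u ∉ T ∪ T' ∪ E} \ {u ∈ ZZ D W, u ∉ T ∪ T' ∪ E}` (`x₁ ≤ Y`). So the term is `≤ ∑_Θ C^(#T+#T'+2#E+1) (s(x₁) + s(W))`,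
`s(x) = ‖∑_{u ∈ ZZ D x, u ∉ T ∪ T' ∪ E} F (Θ F_u)‖`. `gpg` with the indices `(f, f', Θ)` (`x₁ > W`, `co Θ ≠ 0`), `n = T ∪ T' ∪ E` (`nr n ≤ (Y/W)² (log Y)^A₁`), `x = x₁` resp. `x = W`.
-/

set_option autoImplicit false
set_option linter.dupNamespace false

open scoped NumberField ComplexConjugate
open IsDedekindDomain
open scoped Classical

noncomputable section

namespace H1.ENG

open H63.MA H38.ML H38.BB H38.BG H57.PC H57.BRA H77.PC3 H77.WD Pool.Agent.H19.NF Pool.Agent.H19.AB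
  H86.AP H57.GP H35.CF

/-- the additional primes of one dyadic block -/
def Ub {K : Type} [Field K] [NumberField K] {p : ℕ} {ζ : K} (D : RD0 K p ζ) (Y W : ℝ)
    (E T : Finset (Pl K)) : Finset (Pl K) :=
  (ZZ D Y \ E).filter fun u => u ∉ T ∧ W < (nm u : ℝ) ∧ (nm u : ℝ) ≤ 2 * W ∧ nr T * (nm u : ℝ) ≤ Y

variable {p N : ℕ} [NeZero N] {K : IntermediateField ℚ QBar} [NumberField K] {ζ : K}

private theorem prs_nr {K : Type} [Field K] [NumberField K] (n n' : Finset (Pl K)) :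
    nr (n ∪ n') ≤ nr n * nr n' := by
  have h : nr (n ∪ n') = nr n * nr (n' \ n) := by
    rw [← nr_union Finset.disjoint_sdiff, Finset.union_sdiff_self_eq_union]
  rw [h]
  exact mul_le_mul_of_nonneg_left (nr_mono Finset.sdiff_subset)
    (by have := one_le_nr n; linarith)

private theorem prs_nr3 {K : Type} [Field K] [NumberField K] (n n' E : Finset (Pl K)) :
    nr ((n ∪ E) ∪ (n' ∪ E)) ≤ nr n * nr n' * nr E := by
  have h : (n ∪ E) ∪ (n' ∪ E) = (n ∪ n') ∪ E := by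
    ext v
    simp only [Finset.mem_union]
    tauto
  rw [h]
  exact (prs_nr _ _).trans (mul_le_mul_of_nonneg_right (prs_nr _ _)
    (by have := one_le_nr E; linarith))

private theorem prs_card3 {K : Type} [Field K] [NumberField K] (n n' E : Finset (Pl K)) :
    ((((n ∪ E) ∪ (n' ∪ E)).card : ℕ) : ℝ) ≤ n.card + n'.card + E.card := by
  have h : (n ∪ E) ∪ (n' ∪ E) = (n ∪ n') ∪ E := by
    ext v
    simp only [Finset.mem_union]
    tauto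
  rw [h]
  have h1 := Finset.card_union_le (n ∪ n') E
  have h2 := Finset.card_union_le n n'
  exact_mod_cast (by omega : ((n ∪ n') ∪ E).card ≤ n.card + n'.card + E.card)

/-- the endpoint -/
private def xx {K : Type} [Field K] [NumberField K] (Y W : ℝ) (T T' : Finset (Pl K)) : ℝ :=
  min (2 * W) (min (Y / nr T) (Y / nr T'))

private theorem xx_le {K : Type} [Field K] [NumberField K] {Y W : ℝ} (hY : 0 ≤ Y)
    (T T' : Finset (Pl K)) : xx Y W T T' ≤ Y := by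
  have h1 : xx Y W T T' ≤ Y / nr T := (min_le_right _ _).trans (min_le_left _ _)
  exact h1.trans (div_le_self hY (one_le_nr T))

private theorem prs_set {K : Type} [Field K] [NumberField K] {p : ℕ} {ζ : K} (D : RD0 K p ζ)
    {Y : ℝ} (hY : 0 ≤ Y) (W : ℝ) (E T T' : Finset (Pl K)) :
    Ub D Y W E T ∩ Ub D Y W E T' =
      ((ZZ D (xx Y W T T')).filter fun u => u ∉ (T ∪ E) ∪ (T' ∪ E)) \
        ((ZZ D W).filter fun u => u ∉ (T ∪ E) ∪ (T' ∪ E)) := by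
  have e1 : (0 : ℝ) < nr T := by have := one_le_nr T; linarith
  have e2 : (0 : ℝ) < nr T' := by have := one_le_nr T'; linarith
  ext u
  simp only [Finset.mem_inter, Ub, Finset.mem_filter, ZZ, H57.AN.mem_PB, Finset.mem_sdiff,
    Finset.mem_union, not_or, not_and, not_not]
  constructor
  · rintro ⟨⟨⟨⟨h1, h2⟩, hE⟩, h3, h4, h5, h6⟩, ⟨⟨⟨_, _⟩, _⟩, h7, _, _, h8⟩⟩
    refine ⟨⟨⟨?_, h2⟩, ⟨h3, hE⟩, h7, hE⟩, ?_⟩
    · unfold xx
      refine le_min h5 (le_min ?_ ?_)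
      · rw [le_div_iff₀ e1, mul_comm]
        exact h6
      · rw [le_div_iff₀ e2, mul_comm]
        exact h8
    · intro h9
      exact absurd h9.1 (not_le.2 h4)
  · rintro ⟨⟨⟨h1, h2⟩, ⟨h3, hE⟩, h7, hE'⟩, h8⟩
    have h4 : W < (nm u : ℝ) := by
      by_contra h9
      exact hE (h8 ⟨not_lt.1 h9, h2⟩ ⟨h3, hE⟩ h7)
    have h5 : (nm u : ℝ) ≤ 2 * W := h1.trans (min_le_left _ _)
    have h6 : (nm u : ℝ) ≤ Y / nr T := h1.trans ((min_le_right _ _).trans (min_le_left _ _))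
    have h9 : (nm u : ℝ) ≤ Y / nr T' := h1.trans ((min_le_right _ _).trans (min_le_right _ _))
    rw [le_div_iff₀ e1, mul_comm] at h6
    rw [le_div_iff₀ e2, mul_comm] at h9
    have h10 : (nm u : ℝ) ≤ Y := h1.trans (xx_le hY T T')
    exact ⟨⟨⟨⟨h10, h2⟩, hE⟩, h3, h4, h5, h6⟩, ⟨⟨⟨h10, h2⟩, hE⟩, h7, h4, h5, h9⟩⟩

/-- one pair of configurations -/
private theorem prs_one {K : Type} [Field K] [NumberField K] {Ω : Type} [Field Ω] [Algebra K Ω]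
    {p : ℕ} {ζ : K} (D : RD0 K p ζ)
    (L : LDs D Ω) (Fr : FR L) {H : Type} [Group H] [Fintype H] (F : H → ℂ) {Y : ℝ} (hY : 0 ≤ Y)
    (W M : ℝ) (hM : 0 ≤ M) (E T T' : Finset (Pl K)) (co : (Gal(Ω/K) →* H) → ℂ)
    (hco : ∀ Θ, ‖co Θ‖ ≤ M) (Z : Pl K → ℂ)
    (hZ : ∀ u, D.Gd u → u ∉ T ∪ E → u ∉ T' ∪ E → Z u = Ev L Fr H F ((T ∪ E) ∪ (T' ∪ E)) co u) :
    ‖∑ u ∈ Ub D Y W E T ∩ Ub D Y W E T', Z u‖ ≤
      if W < xx Y W T T' then
        M * ∑ Θ ∈ (HS L H ((T ∪ E) ∪ (T' ∪ E))).filter (fun Θ => co Θ ≠ 0),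
          (‖∑ u ∈ (ZZ D (xx Y W T T')).filter (fun u => u ∉ (T ∪ E) ∪ (T' ∪ E)), F (Θ (Fr.F u))‖ +
            ‖∑ u ∈ (ZZ D W).filter (fun u => u ∉ (T ∪ E) ∪ (T' ∪ E)), F (Θ (Fr.F u))‖)
      else 0 := by
  split_ifs with h
  · have h1 : ∑ u ∈ Ub D Y W E T ∩ Ub D Y W E T', Z u =
        ∑ Θ ∈ (HS L H ((T ∪ E) ∪ (T' ∪ E))).filter (fun Θ => co Θ ≠ 0),
          co Θ * ∑ u ∈ Ub D Y W E T ∩ Ub D Y W E T', F (Θ (Fr.F u)) := by
      have h2 : ∀ u ∈ Ub D Y W E T ∩ Ub D Y W E T', Z u = Ev L Fr H F ((T ∪ E) ∪ (T' ∪ E)) co u := by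
        intro u hu
        rw [Finset.mem_inter] at hu
        unfold Ub at hu
        rw [Finset.mem_filter, Finset.mem_filter] at hu
        have h3 : D.Gd u := by
          have h4 := (Finset.mem_sdiff.1 hu.1.1).1
          unfold ZZ at h4
          exact (Finset.mem_filter.1 h4).2
        have h5 := (Finset.mem_sdiff.1 hu.1.1).2
        refine hZ u h3 ?_ ?_
        · rw [Finset.mem_union, not_or]
          exact ⟨hu.1.2.1, h5⟩
        · rw [Finset.mem_union, not_or]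
          exact ⟨hu.2.2.1, h5⟩
      rw [Finset.sum_congr rfl h2]
      unfold Ev
      rw [Finset.sum_comm, Finset.sum_filter_of_ne]
      · refine Finset.sum_congr rfl fun Θ _ => ?_
        rw [Finset.mul_sum]
      · intro Θ _ h3 h4
        exact h3 (by rw [h4, zero_mul])
    rw [h1]
    refine (norm_sum_le _ _).trans ?_
    rw [Finset.mul_sum]
    refine Finset.sum_le_sum fun Θ _ => ?_
    rw [norm_mul]
    refine mul_le_mul (hco Θ) ?_ (norm_nonneg _) hM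
    have hsub : ((ZZ D W).filter fun u => u ∉ (T ∪ E) ∪ (T' ∪ E)) ⊆
        ((ZZ D (xx Y W T T')).filter fun u => u ∉ (T ∪ E) ∪ (T' ∪ E)) := by
      intro u hu
      unfold ZZ at hu ⊢
      rw [Finset.mem_filter, Finset.mem_filter, H57.AN.mem_PB] at hu ⊢
      exact ⟨⟨hu.1.1.trans h.le, hu.1.2⟩, hu.2⟩
    rw [prs_set D hY W E T T', Finset.sum_sdiff_eq_sub hsub]
    exact norm_sub_le _ _
  · have h1 : Ub D Y W E T ∩ Ub D Y W E T' = ∅ := by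
      rw [Finset.eq_empty_iff_forall_notMem]
      intro u hu
      rw [prs_set D hY W E T T', Finset.mem_sdiff] at hu
      refine hu.2 ?_
      have h2 := hu.1
      unfold ZZ at h2 ⊢
      rw [Finset.mem_filter, Finset.mem_filter, H57.AN.mem_PB] at h2 ⊢
      exact ⟨⟨h2.1.1.trans (not_lt.1 h), h2.1.2⟩, h2.2⟩
    rw [h1, Finset.sum_empty, norm_zero]

theorem pairs (hp : p.Prime) (hp2 : p ≠ 2) (hζ : IsPrimitiveRoot ζ p) (D : RD0 K p ζ)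
    (L : LDs D QBar) (Fr : FR L) {P : Type} [Group P] (c : CL p N P) (j₀ : Fin N)
    (X : Finset (Pl K) → (Pl K → P) → ℂ)
    (hX : Ng L Fr c j₀ X) (B A A₁ : ℕ) (ε : ℝ) (hε : 0 < ε) :
    ∃ Y₀ : ℝ, ∀ Y : ℝ, Y₀ ≤ Y → ∀ (E : Finset (Pl K)) (e : Pl K → P), (∀ v ∈ E, v ∉ D.S0) →
      nr E ≤ Real.log Y ^ A₁ → ∀ W : ℝ, Real.exp (Real.log Y ^ ε) ≤ W → W ≤ Y →
      ∑ f ∈ (RX D j₀ (Real.exp (Real.log Y ^ ε)) Y E).filter (fun f =>
          ((sp (ZZ D Y \ E) f).card : ℝ) ≤ B * Real.log (Real.log Y) ∧ nr (sp (ZZ D Y \ E) f) ≤ Y / W),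
        ∑ f' ∈ (RX D j₀ (Real.exp (Real.log Y ^ ε)) Y E).filter (fun f' =>
          (((sp (ZZ D Y \ E) f').card : ℝ) ≤ B * Real.log (Real.log Y) ∧ nr (sp (ZZ D Y \ E) f') ≤ Y / W) ∧
          ¬ ∃ v ∈ sp (ZZ D Y \ E) f, v ∈ sp (ZZ D Y \ E) f' ∧ Real.exp (Real.log Y ^ ε) < (nm v : ℝ)),
        ‖∑ u ∈ Ub D Y W E (sp (ZZ D Y \ E) f) ∩ Ub D Y W E (sp (ZZ D Y \ E) f'),
          X (insert u (sp (ZZ D Y \ E) f ∪ E)) (Function.update (gl c E e f) u (c.g j₀)) *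
            conj (X (insert u (sp (ZZ D Y \ E) f' ∪ E)) (Function.update (gl c E e f') u (c.g j₀)))‖ ≤
        W * (Y / W) ^ 2 * Real.log Y ^ (-(A : ℝ)) := by
  obtain ⟨H, _, _, F, C, hF, hC, hN⟩ := hX
  obtain ⟨bF, hbF⟩ : ∃ bF : ℕ, ∀ h : H, ‖F h‖ ≤ bF := by
    obtain ⟨b, hb⟩ := exists_nat_ge (∑ h : H, ‖F h‖)
    exact ⟨b, fun h => (Finset.single_le_sum (f := fun h => ‖F h‖) (fun i _ => norm_nonneg _)
      (Finset.mem_univ h)).trans hb⟩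
  obtain ⟨Ch, hCh, hHS⟩ := hs_card hp hζ L (Nat.card H)
  have hHS' := hHS H le_rfl hF.exp
  set cc : ℝ := ((N : ℝ) + 1) ^ 2 * Ch with hcc
  have hN1 : (1 : ℝ) ≤ ((N : ℝ) + 1) ^ 2 := by
    have : (0 : ℝ) ≤ N := Nat.cast_nonneg N
    nlinarith
  have hc1 : 1 ≤ cc := by nlinarith
  obtain ⟨C₂, Y₂, hp2'⟩ := pow_ll cc hc1 (2 * B + 2 * A₁)
  obtain ⟨C₃, Y₃, hp3⟩ := pow_ll C hC (2 * B + 4 * A₁)
  obtain ⟨Y₁, hg⟩ := gpg hp hp2 hζ D L Fr (Fintype.card H + bF) (2 + A₁ + (2 * B + 2 * A₁) + C₂) (A + C₃ + A₁ + 2) ε hε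
  refine ⟨max (max Y₁ Y₂) (max Y₃ (Real.exp (Real.exp 1))), fun Y hY E e hE0 hE W hW hWY => ?_⟩
  have hY1 : Y₁ ≤ Y := ((le_max_left _ _).trans (le_max_left _ _)).trans hY
  have hY2 : Y₂ ≤ Y := ((le_max_right _ _).trans (le_max_left _ _)).trans hY
  have hY3 : Y₃ ≤ Y := ((le_max_left _ _).trans (le_max_right _ _)).trans hY
  have hY4 : Real.exp (Real.exp 1) ≤ Y := ((le_max_right _ _).trans (le_max_right _ _)).trans hY
  obtain ⟨hY5, hl1, hll⟩ := loglog hY4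
  have hY0 : (0 : ℝ) < Y := by linarith
  have hl2 : 2 < Real.log Y := by
    have := Real.add_one_lt_exp (one_ne_zero (α := ℝ))
    linarith
  have hW1 : 1 < W := by
    refine lt_of_lt_of_le ?_ hW
    rw [Real.one_lt_exp_iff]
    exact Real.rpow_pos_of_pos (by linarith) _
  have hW0 : 0 < W := by linarith
  set T₀ : ℝ := Real.exp (Real.log Y ^ ε) with hT₀
  have hgd : ∀ f : Pl K → Option (Fin N), ∀ v ∈ sp (ZZ D Y \ E) f ∪ E, v ∉ D.S0 := by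
    intro f v hv
    rcases Finset.mem_union.1 hv with hv | hv
    · have h1 := (Finset.mem_sdiff.1 (mem_sp.1 hv).1).1
      unfold ZZ at h1
      exact (Finset.mem_filter.1 h1).2.1
    · exact hE0 v hv
  have hEll : (E.card : ℝ) ≤ 2 * A₁ * Real.log (Real.log Y) := card_ll E A₁ hY4 hE
  have hE1 : 1 ≤ nr E := one_le_nr E
  have hlY : Real.log Y ≤ Y := (Real.log_le_sub_one_of_pos hY0).trans (by linarith)
  choose co hco1 hco2 hco3 using fun f f' : Pl K → Option (Fin N) =>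
    hN (sp (ZZ D Y \ E) f ∪ E) (sp (ZZ D Y \ E) f' ∪ E) (gl c E e f) (gl c E e f') (hgd f) (hgd f')
  set R₁ := (RX D j₀ T₀ Y E).filter (fun f =>
          ((sp (ZZ D Y \ E) f).card : ℝ) ≤ B * Real.log (Real.log Y) ∧ nr (sp (ZZ D Y \ E) f) ≤ Y / W)
    with hR₁
  set R₂ : (Pl K → Option (Fin N)) → Finset (Pl K → Option (Fin N)) := fun f =>
        (RX D j₀ T₀ Y E).filter (fun f' =>
          (((sp (ZZ D Y \ E) f').card : ℝ) ≤ B * Real.log (Real.log Y) ∧ nr (sp (ZZ D Y \ E) f') ≤ Y / W) ∧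
          ¬ ∃ v ∈ sp (ZZ D Y \ E) f, v ∈ sp (ZZ D Y \ E) f' ∧ T₀ < (nm v : ℝ)) with hR₂
  -- the pairs
  set PP : Finset (Σ _ : Pl K → Option (Fin N), (Pl K → Option (Fin N))) :=
    (R₁.sigma R₂).filter fun g => W < xx Y W (sp (ZZ D Y \ E) g.1) (sp (ZZ D Y \ E) g.2) with hPP
  set J : Finset (Σ _ : (Σ _ : Pl K → Option (Fin N), (Pl K → Option (Fin N))),
      (Gal(QBar/K) →* H)) :=
    PP.sigma fun g => (HS L H ((sp (ZZ D Y \ E) g.1 ∪ E) ∪ (sp (ZZ D Y \ E) g.2 ∪ E))).filter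
      fun Θ => co g.1 g.2 Θ ≠ 0 with hJ
  have hPm : ∀ g ∈ PP, (g.1 ∈ RX D j₀ T₀ Y E ∧
      (((sp (ZZ D Y \ E) g.1).card : ℝ) ≤ B * Real.log (Real.log Y) ∧ nr (sp (ZZ D Y \ E) g.1) ≤ Y / W)) ∧
      (g.2 ∈ RX D j₀ T₀ Y E ∧
      (((sp (ZZ D Y \ E) g.2).card : ℝ) ≤ B * Real.log (Real.log Y) ∧
        nr (sp (ZZ D Y \ E) g.2) ≤ Y / W) ∧
          ¬ ∃ v ∈ sp (ZZ D Y \ E) g.1, v ∈ sp (ZZ D Y \ E) g.2 ∧ T₀ < (nm v : ℝ)) ∧
      W < xx Y W (sp (ZZ D Y \ E) g.1) (sp (ZZ D Y \ E) g.2) := by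
    intro g hg1
    rw [hPP, Finset.mem_filter, Finset.mem_sigma] at hg1
    obtain ⟨⟨h1, h2⟩, h3⟩ := hg1
    rw [hR₁, Finset.mem_filter] at h1
    have h4 : g.2 ∈ (RX D j₀ T₀ Y E).filter (fun f' =>
          (((sp (ZZ D Y \ E) f').card : ℝ) ≤ B * Real.log (Real.log Y) ∧ nr (sp (ZZ D Y \ E) f') ≤ Y / W) ∧
          ¬ ∃ v ∈ sp (ZZ D Y \ E) g.1, v ∈ sp (ZZ D Y \ E) f' ∧ T₀ < (nm v : ℝ)) := h2
    rw [Finset.mem_filter] at h4
    exact ⟨h1, ⟨h4.1, h4.2.1, h4.2.2⟩, h3⟩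
  have hJm : ∀ i ∈ J, i.1 ∈ PP ∧ i.2 ∈ HS L H ((sp (ZZ D Y \ E) i.1.1 ∪ E) ∪ (sp (ZZ D Y \ E) i.1.2 ∪ E)) ∧
      co i.1.1 i.1.2 i.2 ≠ 0 := by
    intro i hi
    rw [hJ, Finset.mem_sigma] at hi
    exact ⟨hi.1, (Finset.mem_filter.1 hi.2).1, (Finset.mem_filter.1 hi.2).2⟩
  set n : (Σ _ : (Σ _ : Pl K → Option (Fin N), (Pl K → Option (Fin N))),
      (Gal(QBar/K) →* H)) → Finset (Pl K) :=
    fun i => (sp (ZZ D Y \ E) i.1.1 ∪ E) ∪ (sp (ZZ D Y \ E) i.1.2 ∪ E) with hn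
  have hncard : ∀ i ∈ J, ((n i).card : ℝ) ≤ ((2 * B + 2 * A₁ : ℕ) : ℝ) * Real.log (Real.log Y) := by
    intro i hi
    obtain ⟨h1, -⟩ := hJm i hi
    obtain ⟨h2, h3, -⟩ := hPm _ h1
    have h4 := prs_card3 (sp (ZZ D Y \ E) i.1.1) (sp (ZZ D Y \ E) i.1.2) E
    refine h4.trans ?_
    push_cast
    linarith [h2.2.1, h3.2.1.1]
  have hYW1 : 1 ≤ Y / W := by
    rw [le_div_iff₀ hW0]
    linarith
  have hYWY : Y / W ≤ Y := div_le_self hY0.le hW1.le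
  have hnnr : ∀ i ∈ J, nr (n i) ≤ (Y / W) ^ 2 * Real.log Y ^ A₁ := by
    intro i hi
    obtain ⟨h1, -⟩ := hJm i hi
    obtain ⟨h2, h3, -⟩ := hPm _ h1
    refine (prs_nr3 _ _ _).trans ?_
    refine mul_le_mul ?_ hE (by linarith) (by positivity)
    rw [sq]
    refine mul_le_mul h2.2.2 h3.2.1.2 ?_ (by linarith)
    have := one_le_nr (sp (ZZ D Y \ E) i.1.2)
    linarith
  have hG1 : ∀ i ∈ J, nr (n i) ≤ Y ^ (2 + A₁ + (2 * B + 2 * A₁) + C₂) ∧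
      ((n i).card : ℝ) ≤ ((2 + A₁ + (2 * B + 2 * A₁) + C₂ : ℕ) : ℝ) * Real.log (Real.log Y) := by
    intro i hi
    constructor
    · refine (hnnr i hi).trans ?_
      calc (Y / W) ^ 2 * Real.log Y ^ A₁ ≤ Y ^ 2 * Y ^ A₁ :=
            mul_le_mul (pow_le_pow_left₀ (by linarith) hYWY 2)
              (pow_le_pow_left₀ (by linarith) hlY _) (by positivity) (by positivity)
        _ = Y ^ (2 + A₁) := (pow_add _ _ _).symm
        _ ≤ Y ^ (2 + A₁ + (2 * B + 2 * A₁) + C₂) := pow_le_pow_right₀ (by linarith) (by omega)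
    · refine (hncard i hi).trans (mul_le_mul_of_nonneg_right ?_ (by linarith))
      exact_mod_cast (by omega : 2 * B + 2 * A₁ ≤ 2 + A₁ + (2 * B + 2 * A₁) + C₂)
  have hG2 : ∀ x : ℝ, T₀ ≤ x → x ≤ Y → T₀ ≤ x ∧ x ≤ Y ^ (2 + A₁ + (2 * B + 2 * A₁) + C₂) := by
    intro x h1 h2
    refine ⟨h1, h2.trans ?_⟩
    calc Y = Y ^ 1 := (pow_one Y).symm
      _ ≤ Y ^ (2 + A₁ + (2 * B + 2 * A₁) + C₂) := pow_le_pow_right₀ (by linarith) (by omega)
  have hG3 : ∀ n', ((J.filter fun i => n i = n').card : ℝ) ≤ Real.log Y ^ (2 + A₁ + (2 * B + 2 * A₁) + C₂) := by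
    intro n'
    rcases (J.filter fun i => n i = n').eq_empty_or_nonempty with he | ⟨i₀, hi₀⟩
    · rw [he, Finset.card_empty, Nat.cast_zero]
      exact pow_nonneg (by linarith) _
    · rw [Finset.mem_filter] at hi₀
      have hk : ((n'.card : ℕ) : ℝ) ≤ ((2 * B + 2 * A₁ : ℕ) : ℝ) * Real.log (Real.log Y) := by
        rw [← hi₀.2]
        exact hncard i₀ hi₀.1
      set Q := (Cf (ZZ D Y \ E) (Fin N)).filter (fun f => sp (ZZ D Y \ E) f ⊆ n') with hQ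
      have h1 : (J.filter fun i => n i = n').card ≤ ((Q ×ˢ Q) ×ˢ HS L H n').card := by
        refine Finset.card_le_card_of_injOn (fun i => ((i.1.1, i.1.2), i.2)) ?_ ?_
        · intro i hi
          rw [Finset.mem_coe, Finset.mem_filter] at hi
          obtain ⟨h2, h3⟩ := hi
          obtain ⟨h4, h5, -⟩ := hJm i h2
          obtain ⟨h6, h7, -⟩ := hPm _ h4
          have h8 : (sp (ZZ D Y \ E) i.1.1 ∪ E) ∪ (sp (ZZ D Y \ E) i.1.2 ∪ E) = n' := h3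
          rw [Finset.mem_coe, Finset.mem_product, Finset.mem_product]
          refine ⟨⟨?_, ?_⟩, ?_⟩
          · rw [hQ, Finset.mem_filter]
            have h9 := h6.1
            unfold RX at h9
            exact ⟨(Finset.mem_filter.1 h9).1, h8 ▸ (Finset.subset_union_left.trans Finset.subset_union_left)⟩
          · rw [hQ, Finset.mem_filter]
            have h9 := h7.1
            unfold RX at h9
            exact ⟨(Finset.mem_filter.1 h9).1, h8 ▸ (Finset.subset_union_left.trans Finset.subset_union_right)⟩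
          · rw [← h8]
            exact h5
        · rintro ⟨⟨a, b⟩, t⟩ _ ⟨⟨a', b'⟩, t'⟩ _ h2
          simp only [Prod.mk.injEq] at h2
          obtain ⟨⟨rfl, rfl⟩, rfl⟩ := h2
          rfl
      have h2 : (Q.card : ℝ) ≤ ((N : ℝ) + 1) ^ n'.card := cn3 _ _ _
      have h3 := (hHS' n').1
      have h4 : ((J.filter fun i => n i = n').card : ℝ) ≤
          (Q.card * Q.card) * (HS L H n').card := by
        rw [Finset.card_product, Finset.card_product] at h1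
        exact_mod_cast h1
      have hNp : (0 : ℝ) ≤ ((N : ℝ) + 1) ^ n'.card := by positivity
      refine h4.trans ?_
      calc ((Q.card : ℝ) * Q.card) * (HS L H n').card
          ≤ (((N : ℝ) + 1) ^ n'.card * ((N : ℝ) + 1) ^ n'.card) * Ch ^ (n'.card + 1) := by
            refine mul_le_mul (mul_le_mul h2 h2 (Nat.cast_nonneg _) hNp) h3 (Nat.cast_nonneg _)
              (mul_nonneg hNp hNp)
        _ = 1 * (Ch * cc ^ n'.card) := by
            rw [hcc, mul_pow, ← pow_mul, pow_succ]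
            ring
        _ ≤ ((N : ℝ) + 1) ^ 2 * (Ch * cc ^ n'.card) := by
            refine mul_le_mul_of_nonneg_right hN1 ?_
            have : (0 : ℝ) ≤ Ch := by linarith
            have : (0 : ℝ) ≤ cc := by linarith
            positivity
        _ = cc * cc ^ n'.card := by
            rw [hcc]
            ring
        _ ≤ Real.log Y ^ C₂ := hp2' Y hY2 _ hk
        _ ≤ Real.log Y ^ (2 + A₁ + (2 * B + 2 * A₁) + C₂) := pow_le_pow_right₀ (by linarith) (by omega)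
  have hG4 : ∀ i ∈ J, Hon L (n i) i.2 ∧ mr i.2 F = 0 := by
    intro i hi
    obtain ⟨h1, h2, h3⟩ := hJm i hi
    obtain ⟨h4, h5, -⟩ := hPm _ h1
    refine ⟨((hHS' _).2 _).1 h2, ?_⟩
    have h6 := h4.1
    have h7 := h5.1
    unfold RX at h6 h7
    have h8 := (Finset.mem_filter.1 h6).2.1
    have h9 := (Finset.mem_filter.1 h7).2.1
    refine hco2 i.1.1 i.1.2 i.2 h3 ?_ ?_
    · intro j hj
      obtain ⟨v, hv, hvT⟩ := h8 j hj
      obtain ⟨g1, g2, g3⟩ := gl_pl c (ZZ D Y) E e _ j v hv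
      refine ⟨v, Finset.mem_union_left _ g1, fun hv' => ?_, g3⟩
      rcases Finset.mem_union.1 hv' with hv' | hv'
      · exact h5.2.2 ⟨v, g1, hv', hvT⟩
      · exact g2 hv'
    · intro j hj
      obtain ⟨v, hv, hvT⟩ := h9 j hj
      obtain ⟨g1, g2, g3⟩ := gl_pl c (ZZ D Y) E e _ j v hv
      refine ⟨v, Finset.mem_union_left _ g1, fun hv' => ?_, g3⟩
      rcases Finset.mem_union.1 hv' with hv' | hv'
      · exact h5.2.2 ⟨v, hv', g1, hvT⟩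
      · exact g2 hv'
  have hG5 : ∀ h, ‖F h‖ ≤ ((Fintype.card H + bF : ℕ) : ℝ) := by
    intro h
    refine (hbF h).trans ?_
    exact_mod_cast Nat.le_add_left _ _
  have hGx : ∀ x : (Σ _ : (Σ _ : Pl K → Option (Fin N), (Pl K → Option (Fin N))),
      (Gal(QBar/K) →* H)) → ℝ, (∀ i ∈ J, T₀ ≤ x i ∧ x i ≤ Y ∧ x i ≤ 2 * W) →
      ∑ i ∈ J, ‖∑ u ∈ (ZZ D (x i)).filter (fun u => u ∉ n i), F (i.2 (Fr.F u))‖ ≤
        (Y / W) ^ 2 * Real.log Y ^ A₁ * (2 * W) * Real.log Y ^ (-((A + C₃ + A₁ + 2 : ℕ) : ℝ)) := by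
    intro x hx
    have h1 := hg Y hY1 _ J n x hG1 (fun i hi => hG2 _ (hx i hi).1 (hx i hi).2.1) hG3 H F
      (Nat.le_add_right _ _) hF hG5 (fun i => i.2) hG4
    have hκ : 0 < (Y / W) ^ 2 * Real.log Y ^ A₁ * (2 * W) := by positivity
    have h2 : ∀ i ∈ J, ‖∑ u ∈ (ZZ D (x i)).filter (fun u => u ∉ n i), F (i.2 (Fr.F u))‖ ≤
        ((Y / W) ^ 2 * Real.log Y ^ A₁ * (2 * W)) * ((nr (n i))⁻¹ * (x i)⁻¹ *
          ‖∑ u ∈ (ZZ D (x i)).filter (fun u => u ∉ n i), F (i.2 (Fr.F u))‖) := by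
      intro i hi
      have hn0 : 0 < nr (n i) := by have := one_le_nr (n i); linarith
      have hx0 : 0 < x i := lt_of_lt_of_le (Real.exp_pos _) (hx i hi).1
      have h3 : nr (n i) * x i ≤ (Y / W) ^ 2 * Real.log Y ^ A₁ * (2 * W) :=
        mul_le_mul (hnnr i hi) (hx i hi).2.2 hx0.le (by positivity)
      have h4 : 1 ≤ ((Y / W) ^ 2 * Real.log Y ^ A₁ * (2 * W)) * ((nr (n i))⁻¹ * (x i)⁻¹) := by
        rw [← mul_inv, ← div_eq_mul_inv, le_div_iff₀ (mul_pos hn0 hx0), one_mul]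
        exact h3
      rw [← mul_assoc]
      exact le_mul_of_one_le_left (norm_nonneg _) h4
    refine (Finset.sum_le_sum h2).trans ?_
    rw [← Finset.mul_sum]
    exact mul_le_mul_of_nonneg_left h1 hκ.le
  have hxP : ∀ i ∈ J, W < xx Y W (sp (ZZ D Y \ E) i.1.1) (sp (ZZ D Y \ E) i.1.2) :=
    fun i hi => (hPm _ (hJm i hi).1).2.2
  have hA1 := hGx (fun i => xx Y W (sp (ZZ D Y \ E) i.1.1) (sp (ZZ D Y \ E) i.1.2))
    (fun i hi => ⟨hW.trans (hxP i hi).le, xx_le hY0.le _ _, min_le_left _ _⟩)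
  have hA2 := hGx (fun _ => W) (fun i _ => ⟨hW, hWY, by linarith⟩)
  -- the sum over the pairs
  set M₀ : ℝ := Real.log Y ^ C₃ with hM₀
  have hM₀0 : 0 ≤ M₀ := pow_nonneg (by linarith) _
  have hS1 : ∑ f ∈ R₁, ∑ f' ∈ R₂ f,
        ‖∑ u ∈ Ub D Y W E (sp (ZZ D Y \ E) f) ∩ Ub D Y W E (sp (ZZ D Y \ E) f'),
          X (insert u (sp (ZZ D Y \ E) f ∪ E)) (Function.update (gl c E e f) u (c.g j₀)) *
            conj (X (insert u (sp (ZZ D Y \ E) f' ∪ E)) (Function.update (gl c E e f') u (c.g j₀)))‖ ≤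
      M₀ * ((∑ i ∈ J, ‖∑ u ∈ (ZZ D (xx Y W (sp (ZZ D Y \ E) i.1.1) (sp (ZZ D Y \ E) i.1.2))).filter
          (fun u => u ∉ n i), F (i.2 (Fr.F u))‖) +
        ∑ i ∈ J, ‖∑ u ∈ (ZZ D W).filter (fun u => u ∉ n i), F (i.2 (Fr.F u))‖) := by
    have h1 : ∑ f ∈ R₁, ∑ f' ∈ R₂ f,
        ‖∑ u ∈ Ub D Y W E (sp (ZZ D Y \ E) f) ∩ Ub D Y W E (sp (ZZ D Y \ E) f'),
          X (insert u (sp (ZZ D Y \ E) f ∪ E)) (Function.update (gl c E e f) u (c.g j₀)) *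
            conj (X (insert u (sp (ZZ D Y \ E) f' ∪ E)) (Function.update (gl c E e f') u (c.g j₀)))‖ =
      ∑ g ∈ R₁.sigma R₂, ‖∑ u ∈ Ub D Y W E (sp (ZZ D Y \ E) g.1) ∩ Ub D Y W E (sp (ZZ D Y \ E) g.2),
          X (insert u (sp (ZZ D Y \ E) g.1 ∪ E)) (Function.update (gl c E e g.1) u (c.g j₀)) *
            conj (X (insert u (sp (ZZ D Y \ E) g.2 ∪ E)) (Function.update (gl c E e g.2) u (c.g j₀)))‖ := by
      rw [Finset.sum_sigma]
    have h1' : ∀ G : (Σ _ : (Σ _ : Pl K → Option (Fin N), (Pl K → Option (Fin N))),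
        (Gal(QBar/K) →* H)) → ℝ, M₀ * ∑ i ∈ J, G i = ∑ g ∈ R₁.sigma R₂,
          if W < xx Y W (sp (ZZ D Y \ E) g.1) (sp (ZZ D Y \ E) g.2) then
            M₀ * ∑ Θ ∈ (HS L H ((sp (ZZ D Y \ E) g.1 ∪ E) ∪ (sp (ZZ D Y \ E) g.2 ∪ E))).filter
              (fun Θ => co g.1 g.2 Θ ≠ 0), G ⟨g, Θ⟩ else 0 := by
      intro G
      rw [hJ, Finset.sum_sigma, Finset.mul_sum, hPP, Finset.sum_filter]
    rw [h1, ← Finset.sum_add_distrib, h1']
    refine Finset.sum_le_sum fun g hg1 => ?_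
    have h2 := prs_one D L Fr F hY0.le W
      (C ^ ((sp (ZZ D Y \ E) g.1 ∪ E).card + (sp (ZZ D Y \ E) g.2 ∪ E).card + 1))
      (pow_nonneg (by linarith) _) E (sp (ZZ D Y \ E) g.1) (sp (ZZ D Y \ E) g.2) (co g.1 g.2)
      (hco1 g.1 g.2)
      (fun u => X (insert u (sp (ZZ D Y \ E) g.1 ∪ E)) (Function.update (gl c E e g.1) u (c.g j₀)) *
            conj (X (insert u (sp (ZZ D Y \ E) g.2 ∪ E)) (Function.update (gl c E e g.2) u (c.g j₀))))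
      (hco3 g.1 g.2)
    refine h2.trans ?_
    split_ifs with h3
    · refine mul_le_mul_of_nonneg_right ?_ (Finset.sum_nonneg fun _ _ => by positivity)
      have h4 : g ∈ PP := by
        rw [hPP, Finset.mem_filter]
        exact ⟨hg1, h3⟩
      obtain ⟨h5, h6, -⟩ := hPm g h4
      rw [pow_succ, mul_comm]
      refine hp3 Y hY3 _ ?_
      have g1 : ((sp (ZZ D Y \ E) g.1 ∪ E).card : ℝ) ≤ (sp (ZZ D Y \ E) g.1).card + E.card := by
        exact_mod_cast Finset.card_union_le _ _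
      have g2 : ((sp (ZZ D Y \ E) g.2 ∪ E).card : ℝ) ≤ (sp (ZZ D Y \ E) g.2).card + E.card := by
        exact_mod_cast Finset.card_union_le _ _
      push_cast
      linarith [h5.2.1, h6.2.1.1]
    · exact le_rfl
  refine hS1.trans ?_
  have hfin : M₀ * ((Y / W) ^ 2 * Real.log Y ^ A₁ * (2 * W) * Real.log Y ^ (-((A + C₃ + A₁ + 2 : ℕ) : ℝ)) +
      (Y / W) ^ 2 * Real.log Y ^ A₁ * (2 * W) * Real.log Y ^ (-((A + C₃ + A₁ + 2 : ℕ) : ℝ))) ≤
      W * (Y / W) ^ 2 * Real.log Y ^ (-(A : ℝ)) := by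
    have hl0 : 0 < Real.log Y := by linarith
    have h1 : Real.log Y ^ (-((A + C₃ + A₁ + 2 : ℕ) : ℝ)) =
        Real.log Y ^ (-(A : ℝ)) * (M₀⁻¹ * ((Real.log Y ^ A₁)⁻¹ * (Real.log Y ^ 2)⁻¹)) := by
      have : (-((A + C₃ + A₁ + 2 : ℕ) : ℝ)) = (-(A : ℝ)) + (-(C₃ : ℝ) + (-(A₁ : ℝ) + -((2 : ℕ) : ℝ))) := by
        push_cast
        ring
      rw [this, Real.rpow_add hl0, Real.rpow_add hl0, Real.rpow_add hl0, Real.rpow_neg hl0.le (C₃ : ℝ),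
        Real.rpow_neg hl0.le (A₁ : ℝ), Real.rpow_neg hl0.le ((2 : ℕ) : ℝ), Real.rpow_natCast,
        Real.rpow_natCast, Real.rpow_natCast]
    have hM1 : 0 < M₀ := by
      rw [hM₀]
      positivity
    have h2 : (0 : ℝ) ≤ Real.log Y ^ (-(A : ℝ)) := Real.rpow_nonneg hl0.le _
    have h3 : M₀ * ((Y / W) ^ 2 * Real.log Y ^ A₁ * (2 * W) * Real.log Y ^ (-((A + C₃ + A₁ + 2 : ℕ) : ℝ)) +
      (Y / W) ^ 2 * Real.log Y ^ A₁ * (2 * W) * Real.log Y ^ (-((A + C₃ + A₁ + 2 : ℕ) : ℝ))) =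
      (W * (Y / W) ^ 2 * Real.log Y ^ (-(A : ℝ))) * (4 * (Real.log Y ^ 2)⁻¹) := by
      rw [h1]
      field_simp
      ring
    rw [h3]
    refine mul_le_of_le_one_right (by positivity) ?_
    rw [← div_eq_mul_inv, div_le_one (by positivity)]
    nlinarith
  exact (mul_le_mul_of_nonneg_left (add_le_add hA1 hA2) hM₀0).trans hfin

end H1.ENG
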