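import Pool.Agent.H86.AP.EngD
import Pool.Agent.H57.GP.Wrp

/-!
# [H1 ENG GPG] the black box GP for class functions of mean zero
-/

set_option autoImplicit false
set_option linter.dupNamespace false

open scoped NumberField ComplexConjugate
open IsDedekindDomain
open scoped Classical

noncomputable section

namespace H1.ENG

open H63.MA H38.ML H38.BB H38.BG H57.PC H57.BRA H77.PC3 H77.WD Pool.Agent.H19.NF Pool.Agent.H19.AB
  H86.AP H57.GP

variable {p : ℕ} {K : IntermediateField ℚ QBar} [NumberField K] {ζ : K}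

theorem gpg (hp : p.Prime) (hp2 : p ≠ 2) (hζ : IsPrimitiveRoot ζ p) (D : RD0 K p ζ)
    (L : LDs D QBar) (Fr : FR L) (b C₁ A : ℕ) (ε : ℝ) (hε : 0 < ε) :
    ∃ Y₀ : ℝ, ∀ Y : ℝ, Y₀ ≤ Y →
      ∀ (ι : Type) (J : Finset ι) (n : ι → Finset (Pl K)) (x : ι → ℝ),
      (∀ i ∈ J, nr (n i) ≤ Y ^ C₁ ∧ ((n i).card : ℝ) ≤ C₁ * Real.log (Real.log Y)) →
      (∀ i ∈ J, Real.exp (Real.log Y ^ ε) ≤ x i ∧ x i ≤ Y ^ C₁) →
      (∀ n', ((J.filter fun i => n i = n').card : ℝ) ≤ Real.log Y ^ C₁) →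
      ∀ (H : Type) [Group H] [Fintype H] (F : H → ℂ), Fintype.card H ≤ b → Cz p H F →
        (∀ h, ‖F h‖ ≤ b) → ∀ Θ : ι → Gal(QBar/K) →* H,
        (∀ i ∈ J, Hon L (n i) (Θ i) ∧ mr (Θ i) F = 0) →
      ∑ i ∈ J, (nr (n i))⁻¹ * (x i)⁻¹ *
          ‖∑ u ∈ (ZZ D (x i)).filter (fun u => u ∉ n i), F (Θ i (Fr.F u))‖ ≤
        Real.log Y ^ (-(A : ℝ)) := by
  obtain ⟨Y₀, h⟩ := gpw hp hp2 hζ L Fr b C₁ A ε hε
  refine ⟨Y₀, ?_⟩
  intro Y hY ι J n x hn hx hfib H _ _ F hcard hF hFb Θ hΘ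
  have h1 := h Y hY ι J n x hn hx hfib (fun _ => H) Θ (fun _ => F) fun i hi => by
    refine ⟨?_, fun y _ => hF.exp y, fun y _ z _ => hF.cls z y, fun y _ => hFb y, (hΘ i hi).1⟩
    refine le_trans ?_ hcard
    rw [← Finset.card_univ]
    exact Finset.card_le_card (Finset.filter_subset _ _)
  refine le_trans (le_of_eq (Finset.sum_congr rfl fun i hi => ?_)) h1
  rw [(hΘ i hi).2]
  simp only [sub_zero]
  congr 2
  unfold ZZ
  rw [Finset.filter_filter]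

end H1.ENG
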